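import Pool.Agent.Run7.h219.WQ.NecD
import Pool.Agent.Run7.h782.WQ.Defs3

/-!
Piece NecQ: necessity with all exponents, from NecA and NecB.
-/

set_option autoImplicit false

open MeasureTheory Set Filter Topology
open scoped ContDiff ComplexConjugate ENNReal

namespace Pool.Agent.Run7.h219.WQ

open H459R3.NS Pool.Agent.Run7.h782 Pool.Agent.Run7.h782.GD
open Pool.Agent.Run7.h782.WS Pool.Agent.Run7.h744.WS Pool.Agent.Run7.h782.WQ

/-! ### A cutoff which is constant near `0` -/

theorem exists_cut2 {T : ℝ} (hT : 0 < T) : ∃ χ : ℝ → ℝ, ContDiff ℝ ∞ χ ∧ χ 0 = 1 ∧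
    (∃ s < T, ∀ t, s ≤ t → χ t = 0) ∧ (∀ t, |χ t| ≤ 1) ∧
    ∃ s₀ : ℝ, 0 < s₀ ∧ ∀ t, t < s₀ → deriv χ t = 0 := by
  refine ⟨fun t => Real.smoothTransition (2 - 3 * t / T), ?_, ?_, ⟨T * (2 / 3), by linarith, ?_⟩,
    ?_, T / 3, by positivity, ?_⟩
  · exact Real.smoothTransition.contDiff.comp (by fun_prop)
  · exact Real.smoothTransition.one_of_one_le (by norm_num)
  · intro t ht
    refine Real.smoothTransition.zero_of_nonpos ?_
    rw [sub_nonpos, le_div_iff₀ hT]
    linarith
  · intro t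
    rw [abs_of_nonneg (Real.smoothTransition.nonneg _)]
    exact Real.smoothTransition.le_one _
  · intro t ht
    have h : (fun t => Real.smoothTransition (2 - 3 * t / T)) =ᶠ[𝓝 t] fun _ => 1 := by
      filter_upwards [Iio_mem_nhds ht] with s hs
      refine Real.smoothTransition.one_of_one_le ?_
      have hs' : s < T / 3 := hs
      have : 3 * s / T ≤ 1 := by
        rw [div_le_one hT]
        linarith
      linarith
    rw [h.deriv_eq, deriv_const]

/-! ### Fubini -/

theorem fub_int {T : ℝ} {a : ℝ → ℂ} (ha : Continuous a) (k : K3) {w : ℝ × V → ℝ}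
    (hw : Integrable w (mu T)) : IntegrableOn (fun t => a t * fr (fun x => w (t, x)) k) (Ioo 0 T) := by
  have h1 := int_cont_mul (T := T) (f := fun z : ℝ × V => a z.1 * ee (-k) z.2)
    ((ha.comp continuous_fst).mul ((ee_continuous _).comp continuous_snd)) hw
  rw [mu, Measure.volume_eq_prod, ← Measure.prod_restrict] at h1
  have h2 := h1.integral_prod_left
  refine h2.congr (Eventually.of_forall fun t => ?_)
  show (∫ x in cube, a t * ee (-k) x * (w (t, x) : ℂ)) = a t * fr (fun x => w (t, x)) k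
  rw [fr, fc, ← integral_const_mul]
  congr 1
  funext x
  ring

theorem fub {T : ℝ} {a : ℝ → ℂ} (ha : Continuous a) (k : K3) {w : ℝ × V → ℝ}
    (hw : Integrable w (mu T)) : ∫ z, a z.1 * ee (-k) z.2 * (w z : ℂ) ∂(mu T)
      = ∫ t in Ioo 0 T, a t * fr (fun x => w (t, x)) k := by
  have h1 := int_cont_mul (T := T) (f := fun z : ℝ × V => a z.1 * ee (-k) z.2)
    ((ha.comp continuous_fst).mul ((ee_continuous _).comp continuous_snd)) hw
  rw [mu, Measure.volume_eq_prod, ← Measure.prod_restrict] at h1 ⊢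
  rw [integral_prod _ h1]
  refine integral_congr_ae (Eventually.of_forall fun t => ?_)
  show (∫ x in cube, a t * ee (-k) x * (w (t, x) : ℂ)) = a t * fr (fun x => w (t, x)) k
  rw [fr, fc, ← integral_const_mul]
  congr 1
  funext x
  ring

/-! ### Real parts of absolutely convergent series -/

theorem fr_reS {a : K3 → ℂ} (ha : Summable a) (hh : ∀ k, a (-k) = conj (a k)) (k : K3) :
    fr (fun x => (S a x).re) k = a k := by
  have h1 := integral_ee_S (-k) ha
  have h2 := integral_ee_S k ha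
  rw [neg_neg] at h1
  have hc := S_continuous ha
  have i1 : Integrable (fun x => ee (-k) x * S a x) (volume.restrict cube) :=
    integrableOn_cube ((ee_continuous _).mul hc)
  have i2 : Integrable (fun x => ee (-k) x * conj (S a x)) (volume.restrict cube) :=
    integrableOn_cube ((ee_continuous _).mul (Complex.continuous_conj.comp hc))
  have h3 : ∫ x in cube, ee (-k) x * conj (S a x) = a k := by
    have e : ∀ x, ee (-k) x * conj (S a x) = conj (ee k x * S a x) := by
      intro x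
      rw [map_mul, ← ee_neg]
    simp_rw [e]
    rw [integral_conj, h2, hh, Complex.conj_conj]
  have e : ∀ x, ee (-k) x * (((S a x).re : ℝ) : ℂ) = (1 / 2 : ℂ) * (ee (-k) x * S a x
      + ee (-k) x * conj (S a x)) := by
    intro x
    rw [Complex.re_eq_add_conj]
    ring
  rw [fr, fc]
  simp_rw [e]
  rw [integral_const_mul, integral_add i1 i2, h1, h3]
  ring

theorem per_reS (a : K3 → ℂ) : Per fun x => (S a x).re := by
  intro i x
  show (S _ _).re = (S _ _).re
  congr 1
  unfold S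
  refine tsum_congr fun k => ?_
  rw [ee_per]

theorem cont_reS {a : K3 → ℂ} (ha : Summable a) : Continuous fun x => (S a x).re :=
  Complex.continuous_re.comp (S_continuous ha)

/-! ### The smooth part -/

/-- The coefficients of the smooth part. -/
noncomputable def Bk (ν T : ℝ) (χ : ℝ → ℝ) (u : ℝ → V → V) (k : K3) : C3 := fun i =>
  ∫ z, ((deriv χ z.1 * Real.exp (-(lam ν k * z.1)) : ℝ) : ℂ) * ee (-k) z.2
    * (u z.1 z.2 i : ℂ) ∂(mu T)

theorem Bk_neg (ν T : ℝ) (χ : ℝ → ℝ) (u : ℝ → V → V) (k : K3) (i : Fin 3) :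
    Bk ν T χ u (-k) i = conj (Bk ν T χ u k i) := by
  unfold Bk
  rw [← integral_conj]
  refine integral_congr_ae (Eventually.of_forall fun z => ?_)
  show ((deriv χ z.1 * Real.exp (-(lam ν (-k) * z.1)) : ℝ) : ℂ) * ee (- -k) z.2
    * (u z.1 z.2 i : ℂ) = conj _
  rw [map_mul, map_mul, Complex.conj_ofReal, Complex.conj_ofReal, ← ee_neg, lam, lam, sq_neg]

/-- The projected coefficients. -/
noncomputable def Bt (ν T : ℝ) (χ : ℝ → ℝ) (u : ℝ → V → V) (k : K3) : C3 :=
  prj k (Bk ν T χ u k)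

theorem Bt_herm (ν T : ℝ) (χ : ℝ → ℝ) (u : ℝ → V → V) : Herm (Bt ν T χ u) := by
  intro k i
  have h := prj_neg_conj k (Bk ν T χ u k)
  have e : Bk ν T χ u (-k) = fun i => conj (Bk ν T χ u k i) := funext fun i => Bk_neg ν T χ u k i
  rw [Bt, Bt, e]
  exact congrFun h i

theorem summable_Bt {ν T : ℝ} (hν : 0 < ν) (hT : 0 < T) {c : Cf} {u : ℝ → V → V}
    (hV : VW ν T c u) {χ : ℝ → ℝ} (hχ : ContDiff ℝ ∞ χ) {s₀ : ℝ} (hs₀ : 0 < s₀)
    (hd : ∀ t, t < s₀ → deriv χ t = 0) (i j : Fin 3) :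
    Summable (anti (Bt ν T χ u) i j) := by
  have hdc : Continuous (deriv χ) := hχ.continuous_deriv (by norm_cast)
  obtain ⟨C₀, hC₀⟩ := (isCompact_Icc (a := (0 : ℝ)) (b := T)).exists_bound_of_continuousOn
    hdc.continuousOn
  have hC0 : 0 ≤ C₀ := (norm_nonneg _).trans (hC₀ 0 ⟨le_rfl, hT.le⟩)
  set J : ℝ := ∑ i, ∫ z, |u z.1 z.2 i| ∂(mu T) with hJ
  have hJi : ∀ i : Fin 3, (∫ z, |u z.1 z.2 i| ∂(mu T)) ≤ J := fun i =>
    Finset.single_le_sum (f := fun i => ∫ z, |u z.1 z.2 i| ∂(mu T))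
      (fun _ _ => integral_nonneg fun _ => abs_nonneg _) (Finset.mem_univ i)
  have hJ0 : 0 ≤ J := Finset.sum_nonneg fun _ _ => integral_nonneg fun _ => abs_nonneg _
  have hmem : ∀ᵐ z : ℝ × V ∂(mu T), z ∈ Ioo 0 T ×ˢ cube :=
    ae_restrict_mem (measurableSet_Ioo.prod measurableSet_Icc)
  have hB : ∀ k i, ‖Bk ν T χ u k i‖ ≤ C₀ * J * ‖gc ν s₀ k‖ := by
    intro k i
    have hg : ‖gc ν s₀ k‖ = Real.exp (-(lam ν k * s₀)) := by
      rw [gc, Complex.norm_real, Real.norm_of_nonneg (Real.exp_pos _).le]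
    have hl : 0 ≤ lam ν k := by
      rw [lam]
      have := sq_nonneg' k
      positivity
    refine (norm_integral_le_of_norm_le
      (g := fun z => C₀ * Real.exp (-(lam ν k * s₀)) * |u z.1 z.2 i|)
      ((int_u hV i).abs.const_mul _) ?_).trans ?_
    · filter_upwards [hmem] with z hz
      rw [norm_mul, norm_mul, norm_ee, mul_one, Complex.norm_real, Complex.norm_real,
        Real.norm_eq_abs, Real.norm_eq_abs, abs_mul, abs_of_pos (Real.exp_pos _)]
      refine mul_le_mul_of_nonneg_right ?_ (abs_nonneg _)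
      by_cases h : z.1 < s₀
      · rw [hd _ h, abs_zero, zero_mul]
        positivity
      · refine mul_le_mul (hC₀ _ (Ioo_subset_Icc_self hz.1)) ?_ (Real.exp_pos _).le hC0
        rw [Real.exp_le_exp]
        exact neg_le_neg (mul_le_mul_of_nonneg_left (not_lt.1 h) hl)
    · rw [integral_const_mul, hg]
      have := mul_le_mul_of_nonneg_left (hJi i)
        (mul_nonneg hC0 (Real.exp_pos (-(lam ν k * s₀))).le)
      linarith
  have hB2 : ∀ k, ‖Bk ν T χ u k‖ ≤ C₀ * J * ‖gc ν s₀ k‖ := fun k =>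
    (pi_norm_le_iff_of_nonneg (by positivity)).2 fun i => hB k i
  refine Summable.of_norm_bounded ((summable_gc hν hs₀).norm.mul_left
    (1 / Real.pi * (4 * (C₀ * J)))) fun k => ?_
  refine (norm_anti_le (Bt ν T χ u) i j k).trans ?_
  have h2 := norm_prj_le k (Bk ν T χ u k)
  have hg0 : 0 ≤ ‖gc ν s₀ k‖ := norm_nonneg _
  have h3 : ‖Bt ν T χ u k‖ / len k ≤ 4 * (C₀ * J) * ‖gc ν s₀ k‖ := by
    by_cases hk : k = 0
    · rw [hk, len_zero, div_zero]
      positivity
    · refine (div_le_self (norm_nonneg _) (one_le_len hk)).trans (h2.trans ?_)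
      have := hB2 k
      linarith
  calc 1 / Real.pi * (‖Bt ν T χ u k‖ / len k)
      ≤ 1 / Real.pi * (4 * (C₀ * J) * ‖gc ν s₀ k‖) :=
        mul_le_mul_of_nonneg_left h3 (by positivity)
    _ = 1 / Real.pi * (4 * (C₀ * J)) * ‖gc ν s₀ k‖ := by ring

/-! ### The projected identity -/

theorem c_eq {ν T : ℝ} {c : Cf} (hc : Dis c) {u : ℝ → V → V} (hV : VW ν T c u) {χ : ℝ → ℝ}
    (hχ : ContDiff ℝ ∞ χ) (h0 : χ 0 = 1) (hs : ∃ s < T, ∀ t, s ≤ t → χ t = 0) {k : K3}
    (hk0 : k ≠ 0) : c k = prj k (Ak ν T χ u k)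
      + (2 * Real.pi * Complex.I : ℂ) • prj k (fun i => ∑ j, (k j : ℂ) * Mk ν T χ u k i j) := by
  have hsq : (GD.sq k : ℂ) ≠ 0 := by
    exact_mod_cast (sq_pos' hk0).ne'
  have hsum : ∑ j, (k j : ℂ) * (k j : ℂ) = (GD.sq k : ℂ) := by
    rw [GD.sq]
    push_cast
    exact Finset.sum_congr rfl fun j _ => by ring
  set N : C3 := fun i => ∑ j, (k j : ℂ) * Mk ν T χ u k i j with hN
  set w : C3 := fun i => c k i - Ak ν T χ u k i - 2 * Real.pi * Complex.I * N i with hw
  have hort : prj k w = 0 := by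
    funext i
    set ξ : Fin 3 → ℝ := fun j => (if j = i then GD.sq k else 0) - (k i : ℝ) * (k j : ℝ) with hξ
    have hξc : ∀ j, (ξ j : ℂ) = (if j = i then (GD.sq k : ℂ) else 0) - (k i : ℂ) * (k j : ℂ) := by
      intro j
      rw [hξ]
      by_cases h : j = i
      · simp only [h, if_true]
        push_cast
        ring
      · simp only [h, if_false]
        push_cast
        ring
    have hξ0 : ∑ j, (k j : ℂ) * (ξ j : ℂ) = 0 := by
      have e : ∀ j : Fin 3, (k j : ℂ) * (ξ j : ℂ)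
          = (if j = i then (k j : ℂ) * (GD.sq k : ℂ) else 0)
            - (k i : ℂ) * ((k j : ℂ) * (k j : ℂ)) := by
        intro j
        rw [hξc]
        split_ifs <;> ring
      rw [Finset.sum_congr rfl fun j _ => e j, Finset.sum_sub_distrib, ← Finset.mul_sum, hsum,
        Finset.sum_ite_eq' Finset.univ i, if_pos (Finset.mem_univ i), sub_self]
    have h1 := weak_char hc.herm hV hχ h0 hs k ξ hξ0
    have h2 : ∑ i, ∑ j, (k i : ℂ) * (ξ j : ℂ) * Mk ν T χ u k i j = ∑ j, (ξ j : ℂ) * N j := by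
      rw [Finset.sum_comm]
      refine Finset.sum_congr rfl fun j _ => ?_
      rw [hN, Finset.mul_sum]
      refine Finset.sum_congr rfl fun i _ => ?_
      rw [Mk_comm]
      ring
    rw [h2] at h1
    have h3 : ∑ j, (ξ j : ℂ) * w j = 0 := by
      have e : ∀ j : Fin 3, (ξ j : ℂ) * w j = (ξ j : ℂ) * c k j
          - (ξ j : ℂ) * Ak ν T χ u k j - 2 * Real.pi * Complex.I * ((ξ j : ℂ) * N j) := by
        intro j
        rw [hw]
        ring
      rw [Finset.sum_congr rfl fun j _ => e j, Finset.sum_sub_distrib, Finset.sum_sub_distrib,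
        ← Finset.mul_sum, h1]
      ring
    have h4 : ∑ j, (ξ j : ℂ) * w j = (GD.sq k : ℂ) * w i - (k i : ℂ) * kd k w := by
      have e : ∀ j : Fin 3, (ξ j : ℂ) * w j = (if j = i then (GD.sq k : ℂ) * w j else 0)
          - (k i : ℂ) * ((k j : ℂ) * w j) := by
        intro j
        rw [hξc]
        split_ifs <;> ring
      rw [Finset.sum_congr rfl fun j _ => e j, Finset.sum_sub_distrib, ← Finset.mul_sum,
        Finset.sum_ite_eq' Finset.univ i, if_pos (Finset.mem_univ i), kd]
    rw [h4] at h3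
    show w i - (k i : ℂ) * (kd k w / (GD.sq k : ℂ)) = 0
    field_simp
    linear_combination h3
  have h5 : prj k (c k) = c k := prj_of_kd_eq_zero (hc.dv k)
  have h6 : w = c k - Ak ν T χ u k - (2 * Real.pi * Complex.I : ℂ) • N := by
    funext i
    rfl
  rw [h6, prj_sub, prj_sub, prj_smul, h5] at hort
  have h7 := sub_eq_zero.1 hort
  rw [← h7]
  abel

/-! ### Integrability of powers -/

theorem memLp_cube {p : ℝ} (hp : 1 ≤ p) {f : V → ℝ} (hf : IntegrableOn f cube) :
    IntegrableOn (fun x => |f x| ^ p) cube ↔ MemLp f (ENNReal.ofReal p) (volume.restrict cube) := by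
  have hp0 : 0 < p := zero_lt_one.trans_le hp
  have h := integrable_norm_rpow_iff (p := ENNReal.ofReal p) hf.aestronglyMeasurable
    (by simpa using hp0) ENNReal.ofReal_ne_top
  rw [ENNReal.toReal_ofReal hp0.le] at h
  exact h

theorem inA {T p : ℝ} (hp : 1 ≤ p) {u : ℝ → V → V} (hu : InLq T u (2 * p)) (i : Fin 3) :
    ∫⁻ t in Ioo 0 T, (∫⁻ x in cube, ENNReal.ofReal (|u t x i| ^ (2 * p))) ^ (2 / (2 * p)) ≠ ⊤ := by
  refine ne_top_of_le_ne_top hu (lintegral_mono fun t => ?_)
  refine ENNReal.rpow_le_rpow (lintegral_mono fun x => ENNReal.ofReal_le_ofReal ?_)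
    (by positivity)
  exact Finset.single_le_sum (f := fun i => |u t x i| ^ (2 * p))
    (fun _ _ => Real.rpow_nonneg (abs_nonneg _) _) (Finset.mem_univ i)

theorem inB {T p : ℝ} (hp : 1 ≤ p) {u : ℝ → V → V} (hu : InLq T u (2 * p)) (i j : Fin 3) :
    ∫⁻ t in Ioo 0 T, (∫⁻ x in cube, ENNReal.ofReal (|u t x i * u t x j| ^ p)) ^ (1 / p) ≠ ⊤ := by
  have hp0 : 0 < p := zero_lt_one.trans_le hp
  refine ne_top_of_le_ne_top hu (lintegral_mono fun t => ?_)
  have e : 1 / p = 2 / (2 * p) := by field_simp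
  rw [e]
  refine ENNReal.rpow_le_rpow (lintegral_mono fun x => ENNReal.ofReal_le_ofReal ?_)
    (by positivity)
  have h1 : ∀ i, |u t x i| ^ (2 * p) = (|u t x i| ^ p) ^ 2 := by
    intro i
    rw [mul_comm, Real.rpow_mul (abs_nonneg _)]
    exact Real.rpow_natCast _ 2
  have hi := Finset.single_le_sum (f := fun i => |u t x i| ^ (2 * p))
    (fun _ _ => Real.rpow_nonneg (abs_nonneg _) _) (Finset.mem_univ i)
  have hj := Finset.single_le_sum (f := fun i => |u t x i| ^ (2 * p))
    (fun _ _ => Real.rpow_nonneg (abs_nonneg _) _) (Finset.mem_univ j)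
  rw [abs_mul, Real.mul_rpow (abs_nonneg _) (abs_nonneg _)]
  have e1 := h1 i
  have e2 := h1 j
  nlinarith [sq_nonneg (|u t x i| ^ p - |u t x j| ^ p)]

/-! ### Assembly -/

theorem prj_k (k : K3) (s : ℂ) : prj k (fun i => (k i : ℂ) * s) = 0 := by
  by_cases hk0 : k = 0
  · subst hk0
    funext i
    simp [prj, kd]
  have hsq : (GD.sq k : ℂ) ≠ 0 := by
    exact_mod_cast (sq_pos' hk0).ne'
  funext i
  have e : kd k (fun i => (k i : ℂ) * s) = (GD.sq k : ℂ) * s := by
    rw [kd, GD.sq]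
    push_cast
    rw [Finset.sum_mul]
    exact Finset.sum_congr rfl fun j _ => by ring
  show (k i : ℂ) * s - (k i : ℂ) * (kd k _ / (GD.sq k : ℂ)) = 0
  rw [e]
  field_simp
  ring

theorem fr_smul' (r : ℝ) (f : V → ℝ) (k : K3) : fr (fun x => r * f x) k = r * fr f k := by
  rw [fr, fc, fr, fc, ← integral_const_mul]
  congr 1
  funext x
  push_cast
  ring

/-- **Piece NecQ.** -/
theorem necQ (hA : StmNecA) (hB : StmNecB) : StmNecQ := by
  intro ν hν c hc T hT u hV
  obtain ⟨χ, hχ, h0, hs, hχ1, s₀, hs₀, hd⟩ := exists_cut2 hT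
  have hχc : Continuous χ := hχ.continuous
  choose F hFp hFi hFk hFq using fun i j : Fin 3 =>
    hA ν T hν hT (fun t x => u t x i) ⟨hV.meas i, hV.sq i⟩ χ hχc j
  choose M hMp hMi hMk hMq using fun i j : Fin 3 =>
    hB ν T hν hT (fun t x => u t x i * u t x j) (int_uu hV i j) χ hχc
  have hBs := summable_Bt hν hT hV hχ hs₀ hd
  set R : Fin 3 → Fin 3 → V → ℝ := fun i j x =>
    (-(2 * ν)) * (F i j x + F j i x) + ((-1) * (S (anti (Bt ν T χ u) i j) x).re
      + (1 / 2) * (M i j x + M j i x)) with hR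
  have iF : ∀ i j, IntegrableOn (fun x => (-(2 * ν)) * (F i j x + F j i x)) cube := fun i j =>
    ((hFi i j).add (hFi j i)).const_mul _
  have iS : ∀ i j, IntegrableOn (fun x => (-1) * (S (anti (Bt ν T χ u) i j) x).re) cube :=
    fun i j => (integrableOn_cube (cont_reS (hBs i j))).const_mul _
  have iM : ∀ i j, IntegrableOn (fun x => (1 / 2 : ℝ) * (M i j x + M j i x)) cube := fun i j =>
    ((hMi i j).add (hMi j i)).const_mul _
  refine ⟨R, ⟨?_, ?_, ?_⟩, ?_, ?_⟩
  · intro i j m x
    simp only [hR, hFp i j m x, hFp j i m x, hMp i j m x, hMp j i m x,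
      per_reS (anti (Bt ν T χ u) i j) m x]
  · intro i j x
    simp only [hR]
    rw [anti_comm' _ i j, add_comm (F i j x), add_comm (M i j x)]
  · intro i j
    exact (iF i j).add ((iS i j).add (iM i j))
  · intro k hk0
    have hsq : (GD.sq k : ℂ) ≠ 0 := by
      exact_mod_cast (sq_pos' hk0).ne'
    have hsum : ∑ j, (k j : ℂ) * (k j : ℂ) = (GD.sq k : ℂ) := by
      rw [GD.sq]
      push_cast
      exact Finset.sum_congr rfl fun j _ => by ring
    have hpi : (2 * Real.pi * Complex.I : ℂ) ≠ 0 := Complex.two_pi_I_ne_zero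
    -- the coefficients
    set a : C3 := fun i => ∫ t in Ioo 0 T, ((χ t : ℂ) * (Real.exp (-(lam ν k * t)) : ℂ))
      * fr (fun x => u t x i) k with ha
    have hαc : Continuous fun t : ℝ => (χ t : ℂ) * (Real.exp (-(lam ν k * t)) : ℂ) :=
      (Complex.continuous_ofReal.comp hχc).mul (Complex.continuous_ofReal.comp (by fun_prop))
    have eF : ∀ i j, fr (F i j) k = 2 * Real.pi * Complex.I * (k j : ℂ) * a i := by
      intro i j
      rw [hFk i j k, ha, ← integral_const_mul]
      refine integral_congr_ae (Eventually.of_forall fun t => ?_)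
      show (χ t : ℂ) * (Real.exp (-(lam ν k * t)) : ℂ) * (2 * Real.pi * Complex.I * (k j : ℂ))
        * fr (fun x => u t x i) k = 2 * Real.pi * Complex.I * (k j : ℂ)
          * ((χ t : ℂ) * (Real.exp (-(lam ν k * t)) : ℂ) * fr (fun x => u t x i) k)
      ring
    have eM : ∀ i j, fr (M i j) k = Mk ν T χ u k i j := by
      intro i j
      rw [hMk i j k, Mk, ← fub hαc k (int_uu hV i j)]
      rfl
    have eA : Ak ν T χ u k = (2 * lam ν k : ℂ) • a - Bk ν T χ u k := by
      funext i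
      have hdc : Continuous (deriv χ) := hχ.continuous_deriv (by norm_cast)
      have i1 := int_cont_mul (T := T) (f := fun z : ℝ × V => (2 * lam ν k : ℂ)
        * ((χ z.1 : ℂ) * (Real.exp (-(lam ν k * z.1)) : ℂ) * ee (-k) z.2))
        (continuous_const.mul ((hαc.comp continuous_fst).mul
          ((ee_continuous _).comp continuous_snd))) (int_u hV i)
      have hbc : Continuous fun t : ℝ => ((deriv χ t * Real.exp (-(lam ν k * t)) : ℝ) : ℂ) :=
        Complex.continuous_ofReal.comp (hdc.mul (by fun_prop))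
      have i2 := int_cont_mul (T := T) (f := fun z : ℝ × V =>
        ((deriv χ z.1 * Real.exp (-(lam ν k * z.1)) : ℝ) : ℂ) * ee (-k) z.2)
        ((hbc.comp continuous_fst).mul ((ee_continuous _).comp continuous_snd)) (int_u hV i)
      have e1 : a i = ∫ z, (χ z.1 : ℂ) * (Real.exp (-(lam ν k * z.1)) : ℂ) * ee (-k) z.2
          * (u z.1 z.2 i : ℂ) ∂(mu T) := (fub hαc k (int_u hV i)).symm
      show Ak ν T χ u k i = (2 * lam ν k : ℂ) * a i - Bk ν T χ u k i
      rw [e1, Bk, ← integral_const_mul, Ak]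
      rw [← integral_sub (by
        refine i1.congr (Eventually.of_forall fun z => ?_)
        ring) i2]
      refine integral_congr_ae (Eventually.of_forall fun z => ?_)
      show (hk ν χ k z.1 : ℂ) * ee (-k) z.2 * (u z.1 z.2 i : ℂ) = 2 * lam ν k
        * ((χ z.1 : ℂ) * (Real.exp (-(lam ν k * z.1)) : ℂ) * ee (-k) z.2 * (u z.1 z.2 i : ℂ))
        - ((deriv χ z.1 * Real.exp (-(lam ν k * z.1)) : ℝ) : ℂ) * ee (-k) z.2
          * (u z.1 z.2 i : ℂ)
      rw [hk]
      push_cast
      ring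
    have eR : ∀ i j, fr (R i j) k = -(2 * ν) * (2 * Real.pi * Complex.I
        * ((k j : ℂ) * a i + (k i : ℂ) * a j)) + (-(anti (Bt ν T χ u) i j k)
          + Mk ν T χ u k i j) := by
      intro i j
      have h1 := fr_add' (iF i j) ((iS i j).add (iM i j)) k
      have h2 := fr_add' (iS i j) (iM i j) k
      have h3 := fr_add' (hFi i j) (hFi j i) k
      have h4 := fr_add' (hMi i j) (hMi j i) k
      have h5 : fr (R i j) k = fr (fun x => (-(2 * ν)) * (F i j x + F j i x)) k
          + fr (fun x => (-1) * (S (anti (Bt ν T χ u) i j) x).re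
            + (1 / 2 : ℝ) * (M i j x + M j i x)) k := h1
      rw [h5, h2, fr_smul', fr_smul', fr_smul', h3, h4,
        fr_reS (hBs i j) (anti_herm' (Bt_herm ν T χ u) i j), eF, eF, eM, eM, Mk_comm ν T χ u k j i]
      push_cast
      ring
    rw [c_eq hc hV hχ h0 hs hk0, eA, prj_sub, prj_smul]
    have hkd : kd k (Bt ν T χ u k) = 0 := kd_prj k _
    have e1 : (fun i => ∑ j, (k j : ℂ) * fr (R i j) k)
        = (-(2 * ν) * (2 * Real.pi * Complex.I) * (GD.sq k : ℂ) : ℂ) • a
          + (fun i => (k i : ℂ) * (-(2 * ν) * (2 * Real.pi * Complex.I) * kd k a))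
          - (1 / (2 * Real.pi * Complex.I) : ℂ) • Bt ν T χ u k
          + fun i => ∑ j, (k j : ℂ) * Mk ν T χ u k i j := by
      funext i
      have e2 : ∀ j : Fin 3, (k j : ℂ) * fr (R i j) k
          = (-(2 * ν) * (2 * Real.pi * Complex.I) * a i) * ((k j : ℂ) * (k j : ℂ))
            + ((k i : ℂ) * (-(2 * ν) * (2 * Real.pi * Complex.I))) * ((k j : ℂ) * a j)
            - 1 / (2 * Real.pi * Complex.I * (GD.sq k : ℂ))
              * (Bt ν T χ u k i * ((k j : ℂ) * (k j : ℂ))
                + (k i : ℂ) * ((k j : ℂ) * Bt ν T χ u k j))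
            + (k j : ℂ) * Mk ν T χ u k i j := by
        intro j
        rw [eR, anti]
        ring
      rw [Finset.sum_congr rfl fun j _ => e2 j, Finset.sum_add_distrib, Finset.sum_sub_distrib,
        Finset.sum_add_distrib, ← Finset.mul_sum, ← Finset.mul_sum, ← Finset.mul_sum,
        Finset.sum_add_distrib, ← Finset.mul_sum, ← Finset.mul_sum, hsum]
      rw [show ∑ j, (k j : ℂ) * Bt ν T χ u k j = kd k (Bt ν T χ u k) from rfl, hkd,
        show ∑ j, (k j : ℂ) * a j = kd k a from rfl]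
      simp only [Pi.add_apply, Pi.sub_apply, Pi.smul_apply, smul_eq_mul]
      field_simp
      ring
    show _ = (2 * Real.pi * Complex.I : ℂ) • prj k (fun i => ∑ j, (k j : ℂ) * fr (R i j) k)
    rw [e1, prj_add, prj_sub, prj_add, prj_k, add_zero, prj_smul, prj_smul, smul_add, smul_sub,
      smul_smul, smul_smul, mul_one_div_cancel hpi, one_smul, prj_of_kd_eq_zero hkd, Bt]
    have e3 : (2 * Real.pi * Complex.I * (-(2 * ν) * (2 * Real.pi * Complex.I) * (GD.sq k : ℂ)) : ℂ)
        = 2 * (lam ν k : ℂ) := by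
      rw [lam]
      push_cast
      linear_combination (-(8 * Real.pi ^ 2 * ν * (GD.sq k : ℂ)) : ℂ) * Complex.I_sq
    rw [e3]
  · intro p hp hLq i j
    have hp0 : 0 < p := zero_lt_one.trans_le hp
    have := cube_finite
    have h2p : (1 : ℝ) ≤ 2 * p := by linarith
    have mF : ∀ i j, MemLp (F i j) (ENNReal.ofReal p) (volume.restrict cube) := by
      intro i j
      have h1 := hFq i j (2 * p) (by linarith) (inA hp hLq i)
      rw [memLp_cube h2p (hFi i j)] at h1
      exact h1.mono_exponent (ENNReal.ofReal_le_ofReal (by linarith))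
    have mM : ∀ i j, MemLp (M i j) (ENNReal.ofReal p) (volume.restrict cube) := by
      intro i j
      have h1 := hMq i j p hp (inB hp hLq i j)
      rwa [memLp_cube hp (hMi i j)] at h1
    have mS : MemLp (fun x => (S (anti (Bt ν T χ u) i j) x).re) (ENNReal.ofReal p)
        (volume.restrict cube) := by
      rw [← memLp_cube hp (integrableOn_cube (cont_reS (hBs i j)))]
      exact integrableOn_cube ((cont_reS (hBs i j)).abs.rpow_const fun x => Or.inr hp0.le)
    have hint : IntegrableOn (R i j) cube := (iF i j).add ((iS i j).add (iM i j))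
    rw [memLp_cube hp hint]
    exact (((mF i j).add (mF j i)).const_mul _).add
      ((mS.const_mul _).add (((mM i j).add (mM j i)).const_mul _))

end Pool.Agent.Run7.h219.WQ
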