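import Pool.Agent.Run7.h811.WQ.InitR
import Pool.Agent.Run7.h782.WQ.Defs4
import Pool.Agent.Run7.h219.WQ.NecQ

/-!
Piece InitS of the project WQ: the fields, with the strong limit of global solutions.
-/

set_option autoImplicit false

open MeasureTheory Set Filter Topology
open scoped ContDiff ENNReal

namespace Pool.Agent.Run7.h219.WQ

open H459R3.NS Pool.Agent.Run7 Pool.Agent.Run7.h782.GD Pool.Agent.Run7.h782.GS
open Pool.Agent.Run7.h782.WS Pool.Agent.Run7.h744.GS Pool.Agent.Run7.h744.WS
open Pool.Agent.Run7.h969.WS Pool.Agent.Run7.h811.WS Pool.Agent.Run7.h811.WQ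
open Pool.Agent.Run7.h782.WQ

/-! ### Integrals of powers of differences -/

theorem fld_sub_apply {a b : Cf} (ha : Summable fun k => ‖a k‖) (hb : Summable fun k => ‖b k‖)
    (y : V) (i : Fin 3) : (S (fun k => a k i) y).re - (S (fun k => b k i) y).re
      = (S (fun k => (a k - b k) i) y).re := by
  have hai : Summable fun k => a k i := Summable.of_norm (Summable.of_nonneg_of_le
    (fun _ => norm_nonneg _) (fun k => norm_le_pi_norm (a k) i) ha)
  have hbi : Summable fun k => b k i := Summable.of_norm (Summable.of_nonneg_of_le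
    (fun _ => norm_nonneg _) (fun k => norm_le_pi_norm (b k) i) hb)
  rw [← Complex.sub_re]
  congr 1
  unfold S
  rw [← (summable_term hai y).tsum_sub (summable_term hbi y)]
  refine tsum_congr fun k => ?_
  show _ = (a k i - b k i) * ee k y
  ring

/-- The integral of the power of the difference of two fields. -/
theorem int_pow_sub {a b : ℝ → Cf} {m : V} {t q : ℝ} (hq : 0 < q)
    (ha : Summable fun k => ‖a t k‖) (hb : Summable fun k => ‖b t k‖) :
    ∫⁻ x in cube, ENNReal.ofReal (∑ i, |(m + fld a t (x - t • m)) i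
      - (m + fld b t (x - t • m)) i| ^ q)
      ≤ ENNReal.ofReal (3 * fp q (fun k => a t k - b t k)) := by
  have hL : L1 (fun k => a t k - b t k) := Summable.of_nonneg_of_le (fun _ => norm_nonneg _)
    (fun k => norm_sub_le (a t k) (b t k)) (ha.add hb)
  have hfc : Continuous fun x : V => 3 * fn (fun k => a t k - b t k) (x - t • m) ^ q :=
    continuous_const.mul (((fn_cont hL).comp (continuous_id.sub continuous_const)).rpow_const
      fun x => Or.inr hq.le)
  have h1 : ∀ x : V, ∑ i, |(m + fld a t (x - t • m)) i - (m + fld b t (x - t • m)) i| ^ q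
      ≤ 3 * fn (fun k => a t k - b t k) (x - t • m) ^ q := by
    intro x
    have h2 : ∀ i : Fin 3, |(m + fld a t (x - t • m)) i - (m + fld b t (x - t • m)) i| ^ q
        ≤ fn (fun k => a t k - b t k) (x - t • m) ^ q := by
      intro i
      refine Real.rpow_le_rpow (abs_nonneg _) ?_ hq.le
      have e : (m + fld a t (x - t • m)) i - (m + fld b t (x - t • m)) i
          = (S (fun k => (a t k - b t k) i) (x - t • m)).re := by
        rw [Pi.add_apply, Pi.add_apply, add_sub_add_left_eq_sub]
        exact fld_sub_apply ha hb _ i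
      rw [e]
      refine (Complex.abs_re_le_norm _).trans ?_
      exact Finset.single_le_sum
        (f := fun i => ‖S (fun k => (a t k - b t k) i) (x - t • m)‖)
        (fun _ _ => norm_nonneg _) (Finset.mem_univ i)
    refine (Finset.sum_le_sum fun i _ => h2 i).trans (le_of_eq ?_)
    rw [Finset.sum_const, Finset.card_univ, Fintype.card_fin, nsmul_eq_mul]
    push_cast
    ring
  refine (lintegral_mono fun x => ENNReal.ofReal_le_ofReal (h1 x)).trans ?_
  rw [← ofReal_integral_eq_lintegral_ofReal (integrableOn_cube hfc)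
    (Eventually.of_forall fun x => by
      have := Real.rpow_nonneg (fn_nonneg (fun k => a t k - b t k) (x - t • m)) q
      show 0 ≤ 3 * _
      linarith)]
  refine ENNReal.ofReal_le_ofReal (le_of_eq ?_)
  rw [integral_const_mul]
  congr 1
  have hper : Per fun x : V => fn (fun k => a t k - b t k) x ^ q := fun j x => by
    show fn (fun k => a t k - b t k) (x + Pi.single j 1) ^ q = _
    rw [fn_per (fun k => a t k - b t k) j x]
  have h6 := int_shift' hper (-(t • m))
  simp only [← sub_eq_add_neg] at h6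
  exact h6

theorem lq_lim {ν : ℝ} {Q : ℕ → ℝ} (hQ : ∀ n, 1 ≤ Q n) {c' : Cf} {r : ℕ → Mf} {m : V}
    {b : ℝ → Cf} (hbt : ∀ t, 0 < t → (Summable fun k => ‖b t k‖) ∧ Herm (b t) ∧ b t 0 = 0)
    {a : ℕ → ℝ → Cf} {e : ℕ → ℝ} (hL : LimS ν Q c' r b a e) (n : ℕ) (T : ℝ) :
    Tendsto (fun j => ∫⁻ t in Ioo 0 T, (∫⁻ x in cube, ENNReal.ofReal
      (∑ i, |(m + fld (a j) t (x - t • m)) i - (m + fld b t (x - t • m)) i| ^ (2 * Q n)))
        ^ (1 / Q n)) atTop (𝓝 0) := by
  have hq0 : 0 < Q n := by linarith [hQ n]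
  have hlim : Tendsto (fun j => ENNReal.ofReal (3 ^ (1 / Q n)) * ∫⁻ t in Ioc 0 T,
      ENNReal.ofReal (fp (2 * Q n) (fun k => a j t k - b t k) ^ (1 / Q n))) atTop (𝓝 0) := by
    have h := ENNReal.Tendsto.const_mul (a := ENNReal.ofReal (3 ^ (1 / Q n))) (hL.lq n T)
      (Or.inr ENNReal.ofReal_ne_top)
    rwa [mul_zero] at h
  refine tendsto_of_tendsto_of_tendsto_of_le_of_le tendsto_const_nhds hlim
    (fun _ => zero_le) (fun j => ?_)
  show _ ≤ ENNReal.ofReal (3 ^ (1 / Q n)) * ∫⁻ t in Ioc 0 T,
      ENNReal.ofReal (fp (2 * Q n) (fun k => a j t k - b t k) ^ (1 / Q n))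
  rw [← lintegral_const_mul' _ _ ENNReal.ofReal_ne_top]
  refine (setLIntegral_mono' measurableSet_Ioo (g := fun t => ENNReal.ofReal (3 ^ (1 / Q n))
    * ENNReal.ofReal (fp (2 * Q n) (fun k => a j t k - b t k) ^ (1 / Q n)))
    fun t ht => ?_).trans (lintegral_mono_set Ioo_subset_Ioc_self)
  have hfp : 0 ≤ fp (2 * Q n) (fun k => a j t k - b t k) :=
    integral_nonneg fun x => Real.rpow_nonneg (fn_nonneg _ _) _
  have h1 := int_pow_sub (m := m) (q := 2 * Q n) (by linarith)
    (csol_facts (hL.sol j) ht.1.le).1 (hbt t ht.1).1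
  refine (ENNReal.rpow_le_rpow h1 (by positivity)).trans (le_of_eq ?_)
  rw [ENNReal.ofReal_rpow_of_nonneg (by positivity) (by positivity),
    Real.mul_rpow (by norm_num) hfp, ENNReal.ofReal_mul (by positivity)]

/-- The difference of the sum of a series and a function. -/
theorem near_clause {ν : ℝ} {Q : ℕ → ℝ} (hQ : ∀ n, 1 ≤ Q n) {c c' : Cf} {m : V}
    (hc0 : ∀ i, c 0 i = ((m i : ℝ) : ℂ)) (hc'k : ∀ k, k ≠ 0 → c' k = c k)
    {R' : Fin 3 → Fin 3 → V → ℝ} {r : ℕ → Mf} (hdat : DatQ Q c' r) (hStr : Str R')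
    (hDiv : IsDiv R' c')
    (hR' : ∀ n i j, IntegrableOn (fun x => |R' i j x| ^ Q n) cube ∧
      Tendsto (fun m => ∫ x in cube, |(S (r m i j) x).re - R' i j x| ^ Q n) atTop (𝓝 0))
    {b : ℝ → Cf} {a : ℕ → ℝ → Cf} {e : ℕ → ℝ} (hL : LimS ν Q c' r b a e)
    (n : ℕ) {ε : ℝ} (hε : 0 < ε) : ∀ᶠ j in atTop,
      Nr (Q n) ε (vf (fun x => m + fld (a j) 0 (x - (0 : ℝ) • m))) c := by
  obtain ⟨ρ, M, hSy, hR1, hdv, hM, hcl⟩ := hL.rep
  have hq : 1 ≤ Q n := hQ n
  have hq0 : 0 < Q n := by linarith
  have hr1 : ∀ l, R1 (r l) := by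
    intro l i j
    obtain ⟨Z, hZ⟩ := hdat.supp l
    exact (summable_of_ne_finset_zero (s := Z) fun k hk => by rw [hZ i j k hk, norm_zero])
  -- smallness
  have h1 := hcl n
  have h2 : ∀ i j, Tendsto (fun l => ∫ x in cube, |(S (r (M l) i j) x).re - R' i j x| ^ Q n)
      atTop (𝓝 0) := fun i j => (hR' n i j).2.comp hM
  have h3 : ∀ i j, Tendsto (fun l => 2 ^ Q n * (rp (Q n) (ρ l - r (M l))
      + ∫ x in cube, |(S (r (M l) i j) x).re - R' i j x| ^ Q n)) atTop (𝓝 0) := by
    intro i j
    have := (h1.add (h2 i j)).const_mul (2 ^ Q n)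
    rwa [add_zero, mul_zero] at this
  have h4 : ∀ᶠ l in atTop, ∀ i j, 2 ^ Q n * (rp (Q n) (ρ l - r (M l))
      + ∫ x in cube, |(S (r (M l) i j) x).re - R' i j x| ^ Q n) ≤ ε :=
    eventually_all.2 fun i => eventually_all.2 fun j => (h3 i j).eventually_le_const hε
  filter_upwards [h4] with l hl
  have hai : ∀ i, Summable fun k => a l 0 k i := fun i =>
    Summable.of_norm (Summable.of_nonneg_of_le (fun _ => norm_nonneg _)
      (fun k => norm_le_pi_norm (a l 0 k) i) (csol_facts (hL.sol l) le_rfl).1)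
  have hser : ∀ k i, vf (fun x => m + fld (a l) 0 (x - (0 : ℝ) • m)) k i
      = (if k = 0 then ((m i : ℝ) : ℂ) else 0) + a l 0 k i := by
    intro k i
    show fr (fun x => (m + fld (a l) 0 (x - (0 : ℝ) • m)) i) k = _
    rw [fr_field (hai i) (csol_facts (hL.sol l) le_rfl).2.1 k]
    unfold ser
    have h3 : ee k (-((0 : ℝ) • m)) = 1 := by
      rw [zero_smul, neg_zero]
      simp [ee, ph]
    rw [h3, one_mul]
  have hρc : ∀ i j, Continuous fun x => (S (ρ l i j) x).re := fun i j =>
    cont_reS (hR1 l i j).of_norm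
  have hiR : ∀ i j, IntegrableOn (fun x => (S (ρ l i j) x).re - R' i j x) cube := fun i j =>
    (integrableOn_cube (hρc i j)).sub (hStr.int i j)
  have hfr : ∀ i j k, fr (fun x => (S (ρ l i j) x).re - R' i j x) k
      = ρ l i j k - fr (R' i j) k := by
    intro i j k
    have h5 := fr_add' (integrableOn_cube (hρc i j)) ((hStr.int i j).const_mul (-1)) k
    rw [fr_smul', fr_reS (hR1 l i j).of_norm (fun k => (hSy l).herm i j k)] at h5
    have e1 : (fun x => (S (ρ l i j) x).re - R' i j x)
        = fun x => (S (ρ l i j) x).re + (-1) * R' i j x := by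
      funext x; ring
    rw [e1, h5]
    push_cast
    ring
  refine ⟨?_, fun i j x => (S (ρ l i j) x).re - R' i j x, ⟨?_, ?_, hiR⟩, ?_, ?_⟩
  · funext i
    rw [hser, if_pos rfl, (csol_facts (hL.sol l) le_rfl).2.2, Pi.zero_apply, add_zero, hc0]
  · intro i j k x
    show (S (ρ l i j) (x + Pi.single k 1)).re - R' i j (x + Pi.single k 1) = _
    rw [hStr.per i j k x]
    have := per_reS (ρ l i j) k x
    simp only at this
    rw [this]
  · intro i j x
    have e1 : ρ l i j = ρ l j i := funext fun k => (hSy l).sym i j k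
    show (S (ρ l i j) x).re - R' i j x = (S (ρ l j i) x).re - R' j i x
    rw [e1, hStr.sym i j x]
  · intro k hk
    have e0 : vf (fun x => m + fld (a l) 0 (x - (0 : ℝ) • m)) k = a l 0 k := by
      funext i
      rw [hser, if_neg hk, zero_add]
    show vf (fun x => m + fld (a l) 0 (x - (0 : ℝ) • m)) k - c k = dvr _ k
    rw [e0, ← hdv l k, ← hc'k k hk, hDiv k hk]
    simp only [dvr]
    rw [← smul_sub, ← prj_sub]
    congr 2
    funext i
    rw [Pi.sub_apply, ← Finset.sum_sub_distrib]
    refine Finset.sum_congr rfl fun j _ => ?_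
    rw [hfr]
    ring
  · intro i j
    have i1 : IntegrableOn (fun x => |(S (r (M l) i j) x).re - R' i j x| ^ Q n) cube := by
      have := cube_finite
      have hc1 : Continuous fun x => (S (r (M l) i j) x).re := cont_reS (hr1 (M l) i j).of_norm
      have m1 : MemLp (fun x => (S (r (M l) i j) x).re) (ENNReal.ofReal (Q n))
          (volume.restrict cube) := by
        rw [← memLp_cube hq (integrableOn_cube hc1)]
        exact integrableOn_cube (hc1.abs.rpow_const fun x => Or.inr hq0.le)
      have m2 := (memLp_cube hq (hStr.int i j)).1 (hR' n i j).1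
      exact (memLp_cube hq ((integrableOn_cube hc1).sub (hStr.int i j))).2 (m1.sub m2)
    have i2 : Continuous fun x => rn (ρ l - r (M l)) x ^ Q n := by
      have hR : R1 (ρ l - r (M l)) := fun i j =>
        Summable.of_nonneg_of_le (fun _ => norm_nonneg _) (fun k => norm_sub_le _ _)
          ((hR1 l i j).add (hr1 (M l) i j))
      exact (rn_cont fun i j => (hR i j).of_norm).rpow_const fun x => Or.inr hq0.le
    have hpt : ∀ x, |(S (ρ l i j) x).re - R' i j x| ^ Q n
        ≤ 2 ^ Q n * (rn (ρ l - r (M l)) x ^ Q n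
          + |(S (r (M l) i j) x).re - R' i j x| ^ Q n) := by
      intro x
      have e1 : (S (ρ l i j) x).re - (S (r (M l) i j) x).re
          = (S ((ρ l - r (M l)) i j) x).re := by
        rw [← Complex.sub_re]
        congr 1
        unfold S
        rw [← (summable_term (hR1 l i j).of_norm x).tsum_sub
          (summable_term (hr1 (M l) i j).of_norm x)]
        refine tsum_congr fun k => ?_
        show _ = (ρ l i j k - r (M l) i j k) * ee k x
        ring
      have e2 : |(S (ρ l i j) x).re - R' i j x| ≤ rn (ρ l - r (M l)) x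
          + |(S (r (M l) i j) x).re - R' i j x| := by
        have e3 : (S (ρ l i j) x).re - R' i j x = (S ((ρ l - r (M l)) i j) x).re
            + ((S (r (M l) i j) x).re - R' i j x) := by
          rw [← e1]; ring
        rw [e3]
        refine (abs_add_le _ _).trans (add_le_add ?_ le_rfl)
        refine (Complex.abs_re_le_norm _).trans ?_
        refine (Finset.single_le_sum (f := fun j => ‖S ((ρ l - r (M l)) i j) x‖)
          (fun _ _ => norm_nonneg _) (Finset.mem_univ j)).trans ?_
        exact Finset.single_le_sum (f := fun i => ∑ j, ‖S ((ρ l - r (M l)) i j) x‖)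
          (fun _ _ => Finset.sum_nonneg fun _ _ => norm_nonneg _) (Finset.mem_univ i)
      refine (Real.rpow_le_rpow (abs_nonneg _) e2 hq0.le).trans ?_
      exact add_rpow_le' (rn_nonneg _ _) (abs_nonneg _) hq0
    have i3 : IntegrableOn (fun x => 2 ^ Q n * (rn (ρ l - r (M l)) x ^ Q n
          + |(S (r (M l) i j) x).re - R' i j x| ^ Q n)) cube :=
      ((integrableOn_cube i2).add i1).const_mul _
    have i0 : IntegrableOn (fun x => |(S (ρ l i j) x).re - R' i j x| ^ Q n) cube := by
      have := cube_finite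
      have m1 : MemLp (fun x => (S (ρ l i j) x).re) (ENNReal.ofReal (Q n))
          (volume.restrict cube) := by
        rw [← memLp_cube hq (integrableOn_cube (hρc i j))]
        exact integrableOn_cube ((hρc i j).abs.rpow_const fun x => Or.inr hq0.le)
      have m2 := (memLp_cube hq (hStr.int i j)).1 (hR' n i j).1
      exact (memLp_cube hq (hiR i j)).2 (m1.sub m2)
    refine ⟨i0, ?_⟩
    refine (setIntegral_mono_on i0 i3 (measurableSet_Icc : MeasurableSet cube)
      fun x _ => hpt x).trans ((le_of_eq ?_).trans (hl i j))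
    rw [integral_const_mul, integral_add (integrableOn_cube i2) i1]
    rfl

theorem limt_clause {ν : ℝ} {Q : ℕ → ℝ} (hQ : ∀ n, 1 ≤ Q n) {c c' : Cf} {m : V}
    (hc0 : ∀ i, c 0 i = ((m i : ℝ) : ℂ)) (hc'k : ∀ k, k ≠ 0 → c' k = c k) (hc'0 : c' 0 = 0)
    {b : ℝ → Cf} (hbt : ∀ t, 0 < t → (Summable fun k => ‖b t k‖) ∧ Herm (b t) ∧ b t 0 = 0)
    (hu : ContinuousOn (fun z : ℝ × V => m + fld b z.1 (z.2 - z.1 • m)) (Ioi 0 ×ˢ univ))
    {R' : Fin 3 → Fin 3 → V → ℝ} {r : ℕ → Mf} (hdat : DatQ Q c' r) (hStr : Str R')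
    (hDiv : IsDiv R' c')
    (hR' : ∀ n i j, IntegrableOn (fun x => |R' i j x| ^ Q n) cube ∧
      Tendsto (fun m => ∫ x in cube, |(S (r m i j) x).re - R' i j x| ^ Q n) atTop (𝓝 0))
    {a : ℕ → ℝ → Cf} {e : ℕ → ℝ} (hL : LimS ν Q c' r b a e) (hPhys : StmPhys)
    (hPair : StmPairH) : ∃ (v : ℕ → ℝ → V → V) (q : ℕ → ℝ → V → ℝ),
      LimT ν Q c (fun t x => m + fld b t (x - t • m)) v q e := by
  have hp := fun j => hPhys ν (a j) (hL.sol j)
  choose p hp using hp
  have hsol : ∀ j T, IsSol ν T (fun t x => m + fld (a j) t (x - t • m))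
      (fun t x => p j t (x - t • m)) := fun j T => h32.GD.galilei (hp j T) m
  have hfa := fun j (t : ℝ) (ht : 0 ≤ t) => csol_facts (hL.sol j) ht
  have hai : ∀ j t, 0 ≤ t → ∀ i, Summable fun k => a j t k i := fun j t ht i =>
    Summable.of_norm (Summable.of_nonneg_of_le (fun _ => norm_nonneg _)
      (fun k => norm_le_pi_norm (a j t k) i) (hfa j t ht).1)
  have hbi : ∀ t, 0 < t → ∀ i, Summable fun k => b t k i := fun t ht i =>
    Summable.of_norm (Summable.of_nonneg_of_le (fun _ => norm_nonneg _)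
      (fun k => norm_le_pi_norm (b t k) i) (hbt t ht).1)
  refine ⟨fun j t x => m + fld (a j) t (x - t • m), fun j t x => p j t (x - t • m),
    ⟨⟨hsol, ?_, hL.ez, ?_, ?_⟩, fun n T => lq_lim hQ hbt hL n T,
      fun n ε hε => near_clause hQ hc0 hc'k hdat hStr hDiv hR' hL n hε⟩⟩
  · -- the initial values
    intro i ψ hψ hψp
    set f : ℝ → V → ℝ := fun t x => (m + fld (a ⌊1 / t⌋₊) 0 (x - (0 : ℝ) • m)) i with hf
    have hsp : ∀ j, SP (fun x => (m + fld (a j) 0 (x - (0 : ℝ) • m)) i) := fun j =>
      (hsol j 1).sp (t := 0) ⟨le_rfl, one_pos⟩ i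
    have hser : ∀ j k, fr (fun x => (m + fld (a j) 0 (x - (0 : ℝ) • m)) i) k
        = (if k = 0 then ((m i : ℝ) : ℂ) else 0) + a j 0 k i := by
      intro j k
      rw [fr_field (hai j 0 le_rfl i) (hfa j 0 le_rfl).2.1 k]
      unfold ser
      have h3 : ee k (-((0 : ℝ) • m)) = 1 := by
        rw [zero_smul, neg_zero]
        simp [ee, ph]
      rw [h3, one_mul]
    have hfl : Tendsto (fun t : ℝ => ⌊1 / t⌋₊) (𝓝[>] 0) atTop := by
      have h0 : Tendsto (fun t : ℝ => 1 / t) (𝓝[>] 0) atTop :=
        tendsto_inv_nhdsGT_zero.congr fun t => (one_div t).symm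
      exact tendsto_nat_floor_atTop.comp h0
    have hlim := hPair f (fun k => c k i) (fun t _ => (hsp _).smooth)
      (fun t _ => (hsp _).per) (fun k => ?_) ?_ ψ hψ hψp
    · have h1 : Tendsto (fun j : ℕ => (1 : ℝ) / ((j : ℝ) + 1)) atTop (𝓝[>] 0) := by
        refine tendsto_nhdsWithin_iff.2 ⟨tendsto_one_div_add_atTop_nhds_zero_nat,
          Eventually.of_forall fun j => ?_⟩
        exact mem_Ioi.2 (by positivity)
      have h2 := hlim.comp h1
      have h3 : ∀ j : ℕ, ⌊1 / ((1 : ℝ) / ((j : ℝ) + 1))⌋₊ = j + 1 := by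
        intro j
        rw [one_div_one_div]
        exact_mod_cast Nat.floor_natCast (R := ℝ) (j + 1)
      refine (tendsto_add_atTop_iff_nat 1).1 (h2.congr fun j => ?_)
      show ∫ x in cube, (m + fld (a ⌊1 / ((1 : ℝ) / ((j : ℝ) + 1))⌋₊) 0 (x - (0 : ℝ) • m)) i * ψ x
        = _
      rw [h3]
    · -- coefficients
      have h1 : Tendsto (fun j => (if k = 0 then ((m i : ℝ) : ℂ) else 0) + a j 0 k i) atTop
          (𝓝 ((if k = 0 then ((m i : ℝ) : ℂ) else 0) + c' k i)) :=
        ((tendsto_pi_nhds.1 (hL.init k)) i).const_add _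
      have h2 : (if k = 0 then ((m i : ℝ) : ℂ) else 0) + c' k i = c k i := by
        by_cases hk : k = 0
        · subst hk
          rw [if_pos rfl, hc'0, Pi.zero_apply, add_zero, hc0]
        · rw [if_neg hk, hc'k k hk, zero_add]
      rw [h2] at h1
      refine (h1.comp hfl).congr fun t => ?_
      exact (hser _ k).symm
    · obtain ⟨C, hC⟩ := hL.grow
      refine ⟨‖m‖ + |C|, fun t _ _ k => ?_⟩
      have hl : 0 ≤ len k := h782.GD.len_nonneg k
      have h1 : (1 : ℝ) ≤ (1 + len k) ^ 2 := by nlinarith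
      show ‖fr (fun x => (m + fld (a ⌊1 / t⌋₊) 0 (x - (0 : ℝ) • m)) i) k‖ ≤ _
      rw [hser]
      have h3 : ‖(if k = 0 then ((m i : ℝ) : ℂ) else 0)‖ ≤ ‖m‖ := by
        split_ifs
        · rw [Complex.norm_real]
          exact norm_le_pi_norm m i
        · rw [norm_zero]
          exact norm_nonneg _
      have h4 : ‖a ⌊1 / t⌋₊ 0 k i‖ ≤ |C| * (1 + len k) ^ 2 := by
        refine (norm_le_pi_norm (a ⌊1 / t⌋₊ 0 k) i).trans ((hC _ k).trans ?_)
        exact mul_le_mul_of_nonneg_right (le_abs_self C) (by positivity)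
      refine (norm_add_le _ _).trans ?_
      have h5 : ‖m‖ * 1 ≤ ‖m‖ * (1 + len k) ^ 2 := mul_le_mul_of_nonneg_left h1 (norm_nonneg _)
      rw [add_mul]
      linarith
  · -- uniform closeness
    intro j t ht ht0 x i
    have h1 : (m + fld (a j) t (x - t • m)) i - (m + fld b t (x - t • m)) i
        = (S (fun k => a j t k i - b t k i) (x - t • m)).re := by
      rw [Pi.add_apply, Pi.add_apply, add_sub_add_left_eq_sub]
      show (S (fun k => a j t k i) (x - t • m)).re - (S (fun k => b t k i) (x - t • m)).re = _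
      rw [← Complex.sub_re]
      congr 1
      unfold S
      rw [← (summable_term (hai j t ht0.le i) _).tsum_sub (summable_term (hbi t ht0 i) _)]
      exact tsum_congr fun k => by ring
    show |(m + fld (a j) t (x - t • m)) i - (m + fld b t (x - t • m)) i| ≤ e j
    rw [h1]
    have hsd : Summable fun k => a j t k i - b t k i := (hai j t ht0.le i).sub (hbi t ht0 i)
    refine (Complex.abs_re_le_norm _).trans ((norm_S_le hsd _).trans ?_)
    refine Real.tsum_le_of_sum_le (fun _ => norm_nonneg _) fun A => ?_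
    refine (Finset.sum_le_sum fun k _ => ?_).trans (hL.unif j t ht ht0 A)
    exact norm_le_pi_norm (a j t k - b t k) i
  · -- convergence in the mean square
    intro T i
    have hlim := (ENNReal.tendsto_toReal ENNReal.zero_ne_top).comp (hL.l2 T)
    rw [ENNReal.toReal_zero] at hlim
    have hfin := (hL.l2 T).eventually (gt_mem_nhds (show (0 : ℝ≥0∞) < 1 by simp))
    refine tendsto_of_tendsto_of_tendsto_of_le_of_le' tendsto_const_nhds hlim
      (Eventually.of_forall fun j => integral_nonneg fun z => sq_nonneg _) ?_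
    filter_upwards [hfin] with j hj
    set F : ℝ × V → ℝ := fun z => ((m + fld (a j) z.1 (z.2 - z.1 • m)) i
      - (m + fld b z.1 (z.2 - z.1 • m)) i) ^ 2 with hF
    have hva : ContinuousOn (fun z : ℝ × V => m + fld (a j) z.1 (z.2 - z.1 • m))
        (Ioc 0 T ×ˢ cube) := by
      refine ((hsol j (T + 1)).smooth_u.continuousOn).mono ?_
      rintro ⟨t, x⟩ ⟨ht, _⟩
      exact ⟨⟨ht.1.le, lt_of_le_of_lt ht.2 (lt_add_one T)⟩, mem_univ _⟩
    have hvb : ContinuousOn (fun z : ℝ × V => m + fld b z.1 (z.2 - z.1 • m))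
        (Ioc 0 T ×ˢ cube) := hu.mono (prod_mono (fun t ht => ht.1) (subset_univ _))
    have hFc : ContinuousOn F (Ioc 0 T ×ˢ cube) :=
      (((continuous_apply i).comp_continuousOn hva).sub
        ((continuous_apply i).comp_continuousOn hvb)).pow 2
    have hmeas : AEStronglyMeasurable F ((volume : Measure (ℝ × V)).restrict (Ioc 0 T ×ˢ cube)) :=
      hFc.aestronglyMeasurable (measurableSet_Ioc.prod (measurableSet_Icc : MeasurableSet cube))
    show ∫ z in Ioc 0 T ×ˢ cube, F z ≤ (∫⁻ t in Ioc 0 T,
      ENNReal.ofReal (∑' k, ‖a j t k - b t k‖ ^ 2)).toReal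
    rw [integral_eq_lintegral_of_nonneg_ae (Eventually.of_forall fun z => sq_nonneg _) hmeas]
    refine ENNReal.toReal_mono (hj.trans ENNReal.one_lt_top).ne ?_
    have hm2 := hmeas
    rw [Measure.volume_eq_prod, ← Measure.prod_restrict] at hm2 ⊢
    rw [lintegral_prod _ hm2.aemeasurable.ennreal_ofReal]
    refine setLIntegral_mono' measurableSet_Ioc fun t ht => ?_
    have ht0 : 0 < t := ht.1
    have hcx : Continuous fun x : V => F (t, x) := by
      have h1 : Continuous fun x : V => (m + fld (a j) t (x - t • m)) i := by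
        have : (fun x => (m + fld (a j) t (x - t • m)) i) = fun x => (S (ser (a j) m t i) x).re :=
          funext fun x => by rw [ser_eq (hai j t ht0.le i)]
        rw [this]
        exact Complex.continuous_re.comp (S_continuous (ser_summable (hai j t ht0.le i)))
      have h2 : Continuous fun x : V => (m + fld b t (x - t • m)) i := by
        have : (fun x => (m + fld b t (x - t • m)) i) = fun x => (S (ser b m t i) x).re :=
          funext fun x => by rw [ser_eq (hbi t ht0 i)]
        rw [this]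
        exact Complex.continuous_re.comp (S_continuous (ser_summable (hbi t ht0 i)))
      exact (h1.sub h2).pow 2
    rw [← ofReal_integral_eq_lintegral_ofReal (integrableOn_cube hcx)
      (Eventually.of_forall fun x => sq_nonneg _)]
    refine ENNReal.ofReal_le_ofReal ?_
    exact int_sq_sub i (hfa j t ht0.le).1 (hbt t ht0).1 (hfa j t ht0.le).2.2 (hbt t ht0).2.2

/-- **Piece InitS.** -/
theorem initS (hIter : StmIterS) (hD1 : StmD1S) (hTg : StmTg) (hP2 : StmPhys2) (hPhys : StmPhys)
    (hPair : StmPairH) : StmInitS := by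
  intro ν hν c hcH hcV R hStr hDiv Q hQ hRQ U P hU hmean φ hφ δ hδ
  have hpi := Real.pi_pos
  set m : V := fun i => ∫ y in cube, U 0 y i with hm'
  have hm0 : ∀ i, c 0 i = ((m i : ℝ) : ℂ) := fun i => (hmean i).symm
  -- the shifted target
  set U' : ℝ → V → V := fun t x => -m + U t (x - t • (-m)) with hU'
  have hUs : ∀ T, IsSol ν T U' (fun t x => P t (x - t • (-m))) := fun T =>
    h32.GD.galilei (hU T) (-m)
  have hU0c : ∀ i, Continuous fun x => U 0 x i := fun i =>
    ((hU 1).sp (t := 0) ⟨le_rfl, one_pos⟩ i).smooth.continuous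
  have hmean' : ∀ i, ∫ x in cube, U' 0 x i = 0 := by
    intro i
    have e : ∀ x, U' 0 x i = -(m i) + U 0 x i := by
      intro x
      simp only [hU', zero_smul, sub_zero, Pi.add_apply, Pi.neg_apply]
    simp_rw [e]
    have := cube_finite
    rw [integral_add (integrable_const _) (integrableOn_cube (hU0c i))]
    simp only [integral_const, measureReal_restrict_apply_univ, smul_eq_mul]
    rw [Measure.real, volume_cube]
    simp [hm']
  have hTgU := hTg ν hν U' _ hUs hmean'
  -- the datum without mean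
  set c' : Cf := fun k => if k = 0 then 0 else c k with hc'
  have hc'k : ∀ k, k ≠ 0 → c' k = c k := fun k hk => by simp only [hc']; rw [if_neg hk]
  have hc'0 : c' 0 = 0 := by simp [hc']
  have hc'le : ∀ k, ‖c' k‖ ≤ ‖c k‖ := by
    intro k
    by_cases hk : k = 0
    · subst hk
      rw [hc'0, norm_zero]
      exact norm_nonneg _
    · rw [hc'k k hk]
  have hcH' : Herm c' := by
    intro k i
    by_cases hk : k = 0
    · subst hk
      rw [neg_zero, hc'0]
      simp
    · rw [hc'k _ (neg_ne_zero.2 hk), hc'k k hk]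
      exact hcH k i
  have hcV' : Dv c' := by
    intro k
    by_cases hk : k = 0
    · subst hk
      rw [hc'0]
      exact kd_zero_right 0
    · rw [hc'k k hk]
      exact hcV k
  have hDiv' : IsDiv R c' := fun k hk => by rw [hc'k k hk, hDiv k hk]
  obtain ⟨r, R', hdat, hStr', hDivR, hR'⟩ := hD1 c' R Q hcH' hcV' hc'0 hStr hDiv' hQ hRQ
  obtain ⟨b, hb, hblim, hbd, hbes, hsq, hLq, hLQ, hL2, ⟨a, e, hLim⟩, hclose⟩ :=
    hIter ν hν _ hTgU Q c' r hdat (fun x => φ (2 * x)) (gg_double hφ) δ hδ
  obtain ⟨p, hp⟩ := hP2 ν b hb m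
  -- facts for positive times
  have hhalf : ∀ t : ℝ, t / 2 + t / 2 = t := fun t => by ring
  have hbt : ∀ t, 0 < t → (Summable fun k => ‖b t k‖) ∧ Herm (b t) ∧ b t 0 = 0 := by
    intro t ht
    have H := hb (t / 2) (by positivity)
    obtain ⟨μ, hμ, C, hC⟩ := H.dec
    have h0 : (0 : ℝ) ≤ t / 2 := by positivity
    refine ⟨?_, ?_, ?_⟩
    · refine Summable.of_nonneg_of_le (fun _ => norm_nonneg _) (fun k => ?_)
        ((h32.GD.summable_exp hμ).mul_left C)
      have := hC (t / 2) h0 k
      simpa only [hhalf] using this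
    · have := H.herm (t / 2) h0
      simpa only [hhalf] using this
    · have := H.zero (t / 2) h0
      simpa only [hhalf] using this
  have hbi : ∀ t, 0 < t → ∀ i, Summable fun k => b t k i := fun t ht i =>
    Summable.of_norm (Summable.of_nonneg_of_le (fun _ => norm_nonneg _)
      (fun k => norm_le_pi_norm (b t k) i) (hbt t ht).1)
  refine ⟨fun t x => m + fld b t (x - t • m), p, hp, ?_, ?_, ?_, ?_, ?_, ?_, ?_, ?_⟩
  · -- energy
    intro T i
    have hcont : ContinuousOn (fun z : ℝ × V => (m + fld b z.1 (z.2 - z.1 • m)) i ^ 2)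
        (Ioi 0 ×ˢ univ) :=
      ((continuous_apply i).comp_continuousOn hp.smooth_u.continuousOn).pow 2
    have hfx : ∀ t, 0 < t → Continuous fun x : V => (m + fld b t (x - t • m)) i ^ 2 := by
      intro t ht
      have : (fun x => (m + fld b t (x - t • m)) i ^ 2) = fun x => (S (ser b m t i) x).re ^ 2 :=
        funext fun x => by rw [ser_eq (hbi t ht i)]
      rw [this]
      exact (Complex.continuous_re.comp (S_continuous (ser_summable (hbi t ht i)))).pow 2
    have hA : IntegrableOn (fun z : ℝ × V => (m + fld b z.1 (z.2 - z.1 • m)) i ^ 2)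
        (Ioc 0 1 ×ˢ cube) := by
      refine strip_int (D := fun t => ‖m‖ ^ 2 + ∑' k, ‖b t k‖ ^ 2)
        (hcont.mono (prod_mono (fun t ht => ht.1) (subset_univ _))) (fun z => sq_nonneg _)
        (fun t ht => integrableOn_cube (hfx t ht.1)) ?_ ?_
      · exact Integrable.add (integrableOn_const (by simp)) hL2
      · intro t ht
        obtain ⟨hs, _, hz⟩ := hbt t ht.1
        exact int_sq_le i hs hz
    have hB : IntegrableOn (fun z : ℝ × V => (m + fld b z.1 (z.2 - z.1 • m)) i ^ 2)
        (Icc 1 T ×ˢ cube) := by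
      refine ContinuousOn.integrableOn_compact (isCompact_Icc.prod isCompact_Icc) (hcont.mono ?_)
      exact prod_mono (fun t ht => lt_of_lt_of_le one_pos ht.1) (subset_univ _)
    refine (hA.union hB).mono_set ?_
    rintro ⟨t, x⟩ ⟨ht, hx⟩
    rcases le_or_gt t 1 with h | h
    · exact Or.inl ⟨⟨ht.1, h⟩, hx⟩
    · exact Or.inr ⟨⟨h.le, ht.2⟩, hx⟩
  · -- the norms in `L² L^q`
    intro n T
    exact lq_clause (hQ n) hp.smooth_u.continuousOn (fun t ht => (hbt t ht).1) (hLQ n) T
  · -- convergence of the coefficients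
    intro k
    rw [tendsto_pi_nhds]
    intro i
    have hee : Tendsto (fun t : ℝ => ee k (-(t • m))) (𝓝[>] 0) (𝓝 1) := by
      have h1 : Continuous fun t : ℝ => ee k (-(t • m)) :=
        (ee_continuous k).comp (continuous_id.smul continuous_const).neg
      have h2 := h1.tendsto 0
      rw [zero_smul, neg_zero] at h2
      have h3 : ee k 0 = 1 := by simp [ee, ph]
      rw [h3] at h2
      exact h2.mono_left nhdsWithin_le_nhds
    have h1 := (hee.mul ((tendsto_pi_nhds.1 (hblim k)) i)).const_add
      (if k = 0 then ((m i : ℝ) : ℂ) else 0)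
    have h2 : (if k = 0 then ((m i : ℝ) : ℂ) else 0) + 1 * c' k i = c k i := by
      by_cases hk : k = 0
      · subst hk
        rw [if_pos rfl, hc'0, Pi.zero_apply, mul_zero, add_zero, hm0]
      · rw [if_neg hk, hc'k k hk, zero_add, one_mul]
    rw [h2] at h1
    refine h1.congr' ?_
    filter_upwards [self_mem_nhdsWithin] with t ht
    exact (fr_field (hbi t ht i) (hbt t ht).2.1 k).symm
  · -- the polynomial bound
    obtain ⟨C, hC⟩ := hbd
    refine ⟨‖m‖ + |C|, fun t ht ht1 k => ?_⟩
    have hl : 0 ≤ len k := h782.GD.len_nonneg k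
    have h1 : (1 : ℝ) ≤ (1 + len k) ^ 2 := by nlinarith
    refine (pi_norm_le_iff_of_nonneg (by positivity)).2 fun i => ?_
    have h2 : vf (fun x => m + fld b t (x - t • m)) k i = ser b m t i k :=
      fr_field (hbi t ht i) (hbt t ht).2.1 k
    show ‖vf (fun x => m + fld b t (x - t • m)) k i‖ ≤ _
    rw [h2]
    unfold ser
    have h3 : ‖(if k = 0 then ((m i : ℝ) : ℂ) else 0)‖ ≤ ‖m‖ := by
      split_ifs
      · rw [Complex.norm_real]
        exact norm_le_pi_norm m i
      · rw [norm_zero]
        exact norm_nonneg _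
    have h4 : ‖ee k (-(t • m)) * b t k i‖ ≤ |C| * (1 + len k) ^ 2 := by
      rw [norm_mul, norm_ee, one_mul]
      refine (norm_le_pi_norm (b t k) i).trans ((hC t ht ht1 k).trans ?_)
      exact mul_le_mul_of_nonneg_right (le_abs_self C) (by positivity)
    refine (norm_add_le _ _).trans ?_
    have h5 : ‖m‖ * 1 ≤ ‖m‖ * (1 + len k) ^ 2 := mul_le_mul_of_nonneg_left h1 (norm_nonneg _)
    rw [add_mul]
    linarith
  · -- the bound in time
    set Nb : ℝ → ℝ := fun t => ∑' k, ‖b t k‖ with hNb
    have hNb0 : ∀ t, 0 ≤ Nb t := fun t => tsum_nonneg fun _ => norm_nonneg _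
    refine ⟨fun t => ‖m‖ + Nb t, fun t ht x i => ?_, ?_, ?_⟩
    · obtain ⟨hs, _, _⟩ := hbt t ht
      show |m i + fld b t (x - t • m) i| ≤ _
      refine (abs_add_le _ _).trans (add_le_add ?_ ?_)
      · rw [← Real.norm_eq_abs]
        exact norm_le_pi_norm m i
      · refine (Complex.abs_re_le_norm _).trans ((norm_S_le (hbi t ht i) _).trans ?_)
        exact Summable.tsum_le_tsum (fun k => norm_le_pi_norm _ i) (hbi t ht i).norm hs
    · have h1 : Tendsto (fun t : ℝ => Real.sqrt t * ‖m‖) (𝓝[>] 0) (𝓝 0) := by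
        have h2 : Tendsto (fun t : ℝ => Real.sqrt t * ‖m‖) (𝓝 0) (𝓝 (Real.sqrt 0 * ‖m‖)) :=
          (Real.continuous_sqrt.tendsto 0).mul_const _
        rw [Real.sqrt_zero, zero_mul] at h2
        exact h2.mono_left nhdsWithin_le_nhds
      have h3 := h1.add hsq
      rw [add_zero] at h3
      refine h3.congr fun t => ?_
      ring
    · obtain ⟨K, hK, hq⟩ := gg_quad (gg_double hφ) ‖m‖
      have hc1 : ContinuousOn (fun t : ℝ => Real.sqrt t * (‖m‖ + Nb t)) (Ioi 0) :=
        Real.continuous_sqrt.continuousOn.mul (continuousOn_const.add (sum_norm_cont hb))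
      have hc2 : ContinuousOn (fun t : ℝ => φ (Real.sqrt t * (‖m‖ + Nb t)) / t) (Ioi 0) := by
        refine ContinuousOn.div ((gg_cont hφ).comp hc1 fun t _ => ?_) continuousOn_id fun t ht => ?_
        · exact mul_nonneg (Real.sqrt_nonneg _) (add_nonneg (norm_nonneg _) (hNb0 t))
        · exact (show (0 : ℝ) < t from ht).ne'
      have hmeas : AEStronglyMeasurable (fun t : ℝ => φ (Real.sqrt t * (‖m‖ + Nb t)) / t)
          (volume.restrict (Ioc 0 1)) :=
        (hc2.mono fun t ht => ht.1).aestronglyMeasurable measurableSet_Ioc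
      have hdom : IntegrableOn (fun t => K * ‖m‖ ^ 2 + φ (2 * (Real.sqrt t * Nb t)) / t)
          (Ioc 0 1) := Integrable.add (integrableOn_const (by simp)) hLq
      refine Integrable.mono' hdom hmeas
        ((ae_restrict_iff' measurableSet_Ioc).2 (Eventually.of_forall fun t ht => ?_))
      have ht0 : 0 < t := ht.1
      have hst : 0 ≤ Real.sqrt t := Real.sqrt_nonneg _
      have h0 : 0 ≤ Real.sqrt t * (‖m‖ + Nb t) :=
        mul_nonneg hst (add_nonneg (norm_nonneg _) (hNb0 t))
      rw [Real.norm_of_nonneg (div_nonneg (hφ.nonneg _ h0) ht0.le)]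
      have h1 : φ (Real.sqrt t * (‖m‖ + Nb t))
          ≤ φ (2 * (Real.sqrt t * ‖m‖)) + φ (2 * (Real.sqrt t * Nb t)) := by
        rw [mul_add]
        exact gg_add hφ (mul_nonneg hst (norm_nonneg _)) (mul_nonneg hst (hNb0 t))
      have h2 : φ (2 * (Real.sqrt t * ‖m‖)) ≤ K * ‖m‖ ^ 2 * t := by
        refine (hq (Real.sqrt t * ‖m‖) (mul_nonneg hst (norm_nonneg _)) ?_).trans (le_of_eq ?_)
        · exact mul_le_of_le_one_left (norm_nonneg _) (Real.sqrt_le_one.2 ht.2)
        · rw [mul_pow, Real.sq_sqrt ht0.le]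
          ring
      calc φ (Real.sqrt t * (‖m‖ + Nb t)) / t
          ≤ (K * ‖m‖ ^ 2 * t + φ (2 * (Real.sqrt t * Nb t))) / t :=
            div_le_div_of_nonneg_right (by linarith) ht0.le
        _ = _ := by
            rw [add_div, mul_div_assoc, div_self ht0.ne', mul_one]
  · -- attainment of the datum
    intro hcS i
    have hc'S : Summable fun k => ‖c' k‖ :=
      Summable.of_nonneg_of_le (fun _ => norm_nonneg _) hc'le hcS
    have hci : Summable fun k => c k i :=
      Summable.of_norm (Summable.of_nonneg_of_le (fun _ => norm_nonneg _)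
        (fun k => norm_le_pi_norm (c k) i) hcS)
    set Cc : ℝ := ∑' k, ‖c' k‖ with hCc
    have hCc0 : 0 ≤ Cc := tsum_nonneg fun _ => norm_nonneg _
    set κ : ℝ := 2 * Real.pi * (3 * ‖m‖) with hκ
    have hκ0 : 0 ≤ κ := by positivity
    have hbound : ∀ t, 0 < t →
        besG φ (fun x => (m + fld b t (x - t • m)) i - (S (fun k => c k i) x).re)
        ≤ besGC (fun x => φ (2 * x)) (fun k => ‖b t k - c' k‖)
          + ENNReal.ofReal (φ (2 * (κ * t * Cc))) := by
      intro t ht
      obtain ⟨hs, hh, hz⟩ := hbt t ht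
      set e : K3 → ℂ := fun k => ee k (-(t • m)) with he
      have hd1 := ser_summable (m := m) (hbi t ht i)
      have hcont : Continuous fun x => (S (ser b m t i) x).re :=
        Complex.continuous_re.comp (S_continuous hd1)
      have hcont2 : Continuous fun x => (S (fun k => c k i) x).re :=
        Complex.continuous_re.comp (S_continuous hci)
      have hfr : ∀ k, ‖fr (fun x => (m + fld b t (x - t • m)) i - (S (fun k => c k i) x).re) k‖
          ≤ ‖b t k - c' k‖ + ‖e k - 1‖ * ‖c' k‖ := by
        intro k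
        have e2 : (fun x => (m + fld b t (x - t • m)) i - (S (fun k => c k i) x).re)
            = fun x => (S (ser b m t i) x).re - (S (fun k => c k i) x).re := by
          funext x
          rw [ser_eq (hbi t ht i)]
        rw [e2, h32.GD.fr_sub hcont hcont2, h32.GD.fr_S hd1 (ser_herm hh),
          h32.GD.fr_S hci (fun k => hcH k i)]
        by_cases hk : k = 0
        · subst hk
          simp only [ser, if_true, hz, Pi.zero_apply, mul_zero, add_zero, hm0, sub_self, norm_zero]
          positivity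
        · have e3 : ser b m t i k - c k i
              = e k * (b t k i - c' k i) + (e k - 1) * c' k i := by
            simp only [ser, if_neg hk, hc'k k hk]
            show 0 + e k * b t k i - c k i = _
            ring
          rw [e3]
          refine (norm_add_le _ _).trans (add_le_add ?_ ?_)
          · rw [norm_mul, he, norm_ee, one_mul]
            exact norm_le_pi_norm (b t k - c' k) i
          · rw [norm_mul]
            exact mul_le_mul_of_nonneg_left (norm_le_pi_norm (c' k) i) (norm_nonneg _)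
      have he1 : ∀ k, ‖e k - 1‖ ≤ κ * t * len k := by
        intro k
        refine (norm_ee_sub_one k _).trans ?_
        have h6 : ph k (-(t • m)) = -(t * ph k m) := by
          rw [← neg_smul, ph_smul]
          ring
        rw [h6, abs_neg, abs_mul, abs_of_pos ht]
        have h7 := abs_ph_le k m
        calc 2 * Real.pi * (t * |ph k m|) ≤ 2 * Real.pi * (t * (3 * len k * ‖m‖)) := by
              gcongr
          _ = κ * t * len k := by rw [hκ]; ring
      have he2 : ∀ k, ‖e k - 1‖ ≤ 2 := by
        intro k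
        refine (norm_sub_le _ _).trans ?_
        rw [he, norm_ee, norm_one]
        norm_num
      have hs1 : Summable fun k => ‖b t k - c' k‖ :=
        Summable.of_nonneg_of_le (fun _ => norm_nonneg _) (fun k => norm_sub_le _ _) (hs.add hc'S)
      have hs2 : Summable fun k => ‖e k - 1‖ * ‖c' k‖ :=
        Summable.of_nonneg_of_le (fun _ => by positivity)
          (fun k => mul_le_mul_of_nonneg_right (he2 k) (norm_nonneg _)) (hc'S.mul_left 2)
      have hn2 : ∀ k, 0 ≤ ‖e k - 1‖ * ‖c' k‖ := fun k => by positivity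
      refine (besG_le hφ (fun k => norm_nonneg _) hn2 hs1 hs2 hfr).trans ?_
      refine add_le_add le_rfl ?_
      refine (besGC_le (gg_double hφ) hn2 (by rw [hc'0, norm_zero]; ring) hs2).trans ?_
      refine ENNReal.ofReal_le_ofReal ?_
      have h8 : ∀ k, ‖e k - 1‖ * ‖c' k‖ / len k ≤ κ * t * ‖c' k‖ := by
        intro k
        by_cases hk : k = 0
        · subst hk
          rw [hc'0]
          simp
        · have hl := h782.GD.len_pos hk
          rw [div_le_iff₀ hl]
          calc ‖e k - 1‖ * ‖c' k‖ ≤ (κ * t * len k) * ‖c' k‖ :=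
                mul_le_mul_of_nonneg_right (he1 k) (norm_nonneg _)
            _ = _ := by ring
      have h9 : Summable fun k => ‖e k - 1‖ * ‖c' k‖ / len k :=
        Summable.of_nonneg_of_le (fun k => div_nonneg (hn2 k) (h782.GD.len_nonneg k)) h8
          (hc'S.mul_left _)
      have h10 : 0 ≤ ∑' k, ‖e k - 1‖ * ‖c' k‖ / len k :=
        tsum_nonneg fun k => div_nonneg (hn2 k) (h782.GD.len_nonneg k)
      refine gg_mono hφ (by linarith) ?_
      refine mul_le_mul_of_nonneg_left ?_ zero_le_two
      refine (Summable.tsum_le_tsum h8 h9 (hc'S.mul_left _)).trans (le_of_eq ?_)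
      rw [tsum_mul_left]
    have hlim2 : Tendsto (fun t : ℝ => ENNReal.ofReal (φ (2 * (κ * t * Cc)))) (𝓝[>] 0) (𝓝 0) := by
      have h1 : Tendsto (fun t : ℝ => 2 * (κ * t * Cc)) (𝓝[>] 0) (𝓝[≥] 0) := by
        refine tendsto_nhdsWithin_iff.2 ⟨?_, ?_⟩
        · have h2 : Tendsto (fun t : ℝ => 2 * (κ * t * Cc)) (𝓝 0) (𝓝 (2 * (κ * 0 * Cc))) :=
            ((tendsto_id.const_mul κ).mul_const Cc).const_mul 2
          rw [mul_zero, zero_mul, mul_zero] at h2
          exact h2.mono_left nhdsWithin_le_nhds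
        · filter_upwards [self_mem_nhdsWithin] with t ht
          have ht0 : (0 : ℝ) < t := ht
          exact mul_nonneg zero_le_two (mul_nonneg (mul_nonneg hκ0 ht0.le) hCc0)
      have h3 := ENNReal.tendsto_ofReal ((gg_tendsto hφ).comp h1)
      rw [ENNReal.ofReal_zero] at h3
      exact h3
    have hlim := (hbes hc'S).add hlim2
    rw [add_zero] at hlim
    refine tendsto_of_tendsto_of_tendsto_of_le_of_le' tendsto_const_nhds hlim
      (Eventually.of_forall fun _ => zero_le) ?_
    filter_upwards [self_mem_nhdsWithin] with t ht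
    exact hbound t ht
  · -- the limit of global solutions
    obtain ⟨v, q, h⟩ := limt_clause hQ hm0 hc'k hc'0 hbt hp.smooth_u.continuousOn hdat hStr' hDivR
      hR' hLim hPhys hPair
    exact ⟨v, q, e, h⟩
  · -- closeness to the target
    intro t ht x i
    have ht0 : 0 < t := hδ.trans_le ht
    obtain ⟨hs, _, _⟩ := hbt t ht0
    set y : V := x - t • m with hy
    have hspU : SP (fun z => U' t z i) :=
      (hUs (t + 1)).sp (t := t) ⟨ht0.le, by linarith⟩ i
    have hUy : U t x i = m i + U' t y i := by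
      simp only [hU', Pi.add_apply, Pi.neg_apply, hy]
      have : x - t • m - t • (-m) = x := by
        rw [smul_neg]
        abel
      rw [this]
      ring
    have hfrU : Summable (fr (fun z => U' t z i)) := (rap_fr hspU).summable
    have hUre : U' t y i = (S (fr (fun z => U' t z i)) y).re := by
      rw [S_fr hspU, Complex.ofReal_re]
    show |(m + fld b t y) i - U t x i| ≤ δ
    have e1 : (m + fld b t y) i - U t x i
        = (S (fun k => b t k i - fr (fun z => U' t z i) k) y).re := by
      rw [hUy, Pi.add_apply, hUre]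
      have e2 : S (fun k => b t k i - fr (fun z => U' t z i) k) y
          = S (fun k => b t k i) y - S (fr (fun z => U' t z i)) y := by
        unfold S
        rw [← (summable_term (hbi t ht0 i) y).tsum_sub (summable_term hfrU y)]
        exact tsum_congr fun k => by ring
      rw [e2, Complex.sub_re]
      show m i + (S (fun k => b t k i) y).re - _ = _
      ring
    rw [e1]
    have hsd : Summable fun k => b t k i - fr (fun z => U' t z i) k := (hbi t ht0 i).sub hfrU
    refine (Complex.abs_re_le_norm _).trans ((norm_S_le hsd _).trans ?_)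
    refine Real.tsum_le_of_sum_le (fun _ => norm_nonneg _) fun A => ?_
    refine (Finset.sum_le_sum fun k _ => ?_).trans (hclose t ht A)
    exact norm_le_pi_norm (b t k - vf (U' t) k) i

end Pool.Agent.Run7.h219.WQ
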