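import Pool.Agent.Run7.h782.WQ.Defs

/-!
The heat kernel of the torus: positivity and Fourier coefficients.
-/

set_option autoImplicit false

open MeasureTheory Set Filter Topology HurwitzZeta
open scoped ContDiff ComplexConjugate

namespace Pool.Agent.Run7.h219.WQ

open H459R3.NS Pool.Agent.Run7.h782 Pool.Agent.Run7.h782.GD

/-- Frequencies as triples. -/
def e3 : K3 ≃ ℤ × ℤ × ℤ where
  toFun k := (k 0, k 1, k 2)
  invFun p := ![p.1, p.2.1, p.2.2]
  left_inv k := by funext i; fin_cases i <;> rfl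
  right_inv p := rfl

theorem hasSum_prod3 {f : Fin 3 → ℤ → ℂ} (hf : ∀ i, Summable fun n => ‖f i n‖) :
    HasSum (fun k : K3 => ∏ i, f i (k i)) (∏ i, ∑' n, f i n) := by
  have h12 : Summable fun z : ℤ × ℤ => ‖f 1 z.1 * f 2 z.2‖ := by
    have h := (hf 1).mul_of_nonneg (hf 2) (fun _ => norm_nonneg _) (fun _ => norm_nonneg _)
    refine h.congr fun z => ?_
    rw [norm_mul]
  have h012 : Summable fun z : ℤ × ℤ × ℤ => ‖f 0 z.1 * (f 1 z.2.1 * f 2 z.2.2)‖ := by
    have h := (hf 0).mul_of_nonneg h12 (fun _ => norm_nonneg _) (fun _ => norm_nonneg _)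
    refine h.congr fun z => ?_
    rw [norm_mul (f 0 z.1)]
  have e1 := tsum_mul_tsum_of_summable_norm (hf 1) (hf 2)
  have e2 := tsum_mul_tsum_of_summable_norm (hf 0) h12
  have hs : HasSum (fun z : ℤ × ℤ × ℤ => f 0 z.1 * (f 1 z.2.1 * f 2 z.2.2))
      (∏ i, ∑' n, f i n) := by
    have h := h012.of_norm.hasSum
    rw [← e2, ← e1, ← mul_assoc] at h
    rw [Fin.prod_univ_three]
    exact h
  have h := (e3.hasSum_iff (f := fun z : ℤ × ℤ × ℤ => f 0 z.1 * (f 1 z.2.1 * f 2 z.2.2))).2 hs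
  have e : (fun k : K3 => ∏ i, f i (k i))
      = (fun z : ℤ × ℤ × ℤ => f 0 z.1 * (f 1 z.2.1 * f 2 z.2.2)) ∘ e3 := by
    funext k
    rw [Fin.prod_univ_three, mul_assoc]
    rfl
  rw [e]
  exact h

theorem cosKernel_nonneg (a : ℝ) {t : ℝ} (ht : 0 < t) : 0 ≤ cosKernel a t := by
  have h := evenKernel_functional_equation a (1 / t)
  rw [one_div_one_div] at h
  have h1 : 0 ≤ evenKernel a (1 / t) :=
    (hasSum_int_evenKernel a (one_div_pos.2 ht)).nonneg fun _ => (Real.exp_pos _).le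
  have h2 : 0 < 1 / (1 / t) ^ (1 / 2 : ℝ) :=
    one_div_pos.2 (Real.rpow_pos_of_pos (one_div_pos.2 ht) _)
  rw [h] at h1
  exact nonneg_of_mul_nonneg_right h1 h2

/-- The coefficients of the heat kernel. -/
noncomputable def gc (ν τ : ℝ) (k : K3) : ℂ := (Real.exp (-(lam ν k * τ)) : ℂ)

theorem hasSum_gc {ν τ : ℝ} (hν : 0 < ν) (hτ : 0 < τ) (y : V) :
    HasSum (fun k => gc ν τ k * ee k y) ((∏ i, cosKernel (y i) (4 * Real.pi * ν * τ) : ℝ) : ℂ) := by
  have ht : 0 < 4 * Real.pi * ν * τ := by positivity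
  set t : ℝ := 4 * Real.pi * ν * τ with htd
  have h1 : ∀ i : Fin 3, HasSum (fun n : ℤ ↦
      Complex.exp (2 * Real.pi * Complex.I * (y i) * n) * Real.exp (-Real.pi * n ^ 2 * t))
        ((cosKernel (y i) t : ℝ) : ℂ) := fun i => hasSum_int_cosKernel (y i) ht
  have hn : ∀ i : Fin 3, Summable fun n : ℤ =>
      ‖Complex.exp (2 * Real.pi * Complex.I * (y i) * n) * Real.exp (-Real.pi * n ^ 2 * t)‖ :=
    fun i => (h1 i).summable.norm
  have h := hasSum_prod3 hn
  have e1 : (∏ i, ∑' n : ℤ, Complex.exp (2 * Real.pi * Complex.I * (y i) * n)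
      * Real.exp (-Real.pi * n ^ 2 * t)) = ((∏ i, cosKernel (y i) t : ℝ) : ℂ) := by
    rw [Complex.ofReal_prod]
    exact Finset.prod_congr rfl fun i _ => (h1 i).tsum_eq
  rw [e1] at h
  convert h using 1
  funext k
  rw [Finset.prod_mul_distrib, ← Complex.exp_sum, ← Complex.ofReal_prod, ← Real.exp_sum,
    mul_comm (Complex.exp _)]
  have e2 : -(lam ν k * τ) = ∑ i, -Real.pi * (k i : ℝ) ^ 2 * t := by
    rw [lam, GD.sq, htd, Finset.mul_sum, Finset.sum_mul, ← Finset.sum_neg_distrib]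
    exact Finset.sum_congr rfl fun j _ => by ring
  have e3 : 2 * Real.pi * Complex.I * (ph k y : ℂ)
      = ∑ i, 2 * Real.pi * Complex.I * (y i) * (k i) := by
    rw [ph]
    push_cast
    rw [Finset.mul_sum]
    exact Finset.sum_congr rfl fun j _ => by ring
  rw [gc, ee, e2, e3]

/-- The heat kernel. -/
noncomputable def G (ν τ : ℝ) (y : V) : ℝ := (S (gc ν τ) y).re

theorem S_gc {ν τ : ℝ} (hν : 0 < ν) (hτ : 0 < τ) (y : V) :
    S (gc ν τ) y = ((∏ i, cosKernel (y i) (4 * Real.pi * ν * τ) : ℝ) : ℂ) :=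
  (hasSum_gc hν hτ y).tsum_eq

theorem S_gc' {ν τ : ℝ} (hν : 0 < ν) (hτ : 0 < τ) (y : V) : S (gc ν τ) y = (G ν τ y : ℂ) := by
  rw [G, S_gc hν hτ, Complex.ofReal_re]

theorem G_nonneg {ν τ : ℝ} (hν : 0 < ν) (hτ : 0 < τ) (y : V) : 0 ≤ G ν τ y := by
  rw [G, S_gc hν hτ, Complex.ofReal_re]
  exact Finset.prod_nonneg fun i _ => cosKernel_nonneg _ (by positivity)

theorem summable_gc {ν τ : ℝ} (hν : 0 < ν) (hτ : 0 < τ) : Summable (gc ν τ) := by
  have h := (hasSum_gc hν hτ 0).summable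
  refine h.congr fun k => ?_
  rw [ee]
  simp [ph]

theorem ee_sub (k : K3) (x y : V) : ee k (x - y) = ee k x * ee (-k) y := by
  have e : ee k (-y) = ee (-k) y := by
    rw [ee, ee]
    congr 2
    rw [ph_neg]
    simp [ph]
  rw [sub_eq_add_neg, ee_add, e]

theorem S_shift (a : K3 → ℂ) (x y : V) :
    S a (x - y) = S (fun k => a k * ee (-k) y) x := by
  unfold S
  refine tsum_congr fun k => ?_
  rw [ee_sub]
  ring

theorem summable_shift {a : K3 → ℂ} (ha : Summable a) (y : V) :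
    Summable fun k => a k * ee (-k) y := by
  refine Summable.of_norm ?_
  simp_rw [norm_mul, norm_ee, mul_one]
  exact ha.norm

theorem int_ee_G {ν τ : ℝ} (hν : 0 < ν) (hτ : 0 < τ) (k : K3) (y : V) :
    ∫ x in cube, ee (-k) x * (G ν τ (x - y) : ℂ) = gc ν τ k * ee (-k) y := by
  have h := integral_ee_S (-k) (summable_shift (summable_gc hν hτ) y)
  rw [neg_neg] at h
  rw [← h]
  refine integral_congr_ae (Eventually.of_forall fun x => ?_)
  show ee (-k) x * (G ν τ (x - y) : ℂ) = ee (-k) x * S (fun k => gc ν τ k * ee (-k) y) x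
  rw [← S_gc' hν hτ, S_shift]

theorem int_G {ν τ : ℝ} (hν : 0 < ν) (hτ : 0 < τ) (y : V) :
    ∫ x in cube, G ν τ (x - y) = 1 := by
  have h := int_ee_G hν hτ 0 y
  simp only [neg_zero, ee_zero, one_mul, mul_one] at h
  rw [integral_complex_ofReal] at h
  have e : gc ν τ 0 = 1 := by simp [gc, lam]
  rw [e] at h
  exact_mod_cast h

theorem G_cont {ν τ : ℝ} (hν : 0 < ν) (hτ : 0 < τ) : Continuous (G ν τ) :=
  Complex.continuous_re.comp (S_continuous (summable_gc hν hτ))

theorem G_per (ν τ : ℝ) (y : V) : Per fun x => G ν τ (x - y) := by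
  intro i x
  show (S _ _).re = (S _ _).re
  rw [S_shift, S_shift]
  congr 1
  unfold S
  refine tsum_congr fun k => ?_
  rw [ee_per]

/-- Joint measurability. -/
theorem G_meas {ν T : ℝ} (hν : 0 < ν) :
    AEStronglyMeasurable (fun q : V × (ℝ × V) => G ν q.2.1 (q.1 - q.2.2))
      ((volume.restrict cube).prod (volume.restrict (Ioo 0 T ×ˢ cube))) := by
  refine aestronglyMeasurable_of_tendsto_ae (atTop : Filter (Finset K3))
    (f := fun (A : Finset K3) (q : V × (ℝ × V)) =>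
      (∑ k ∈ A, gc ν q.2.1 k * ee k (q.1 - q.2.2)).re) (fun A => ?_) ?_
  · refine (Complex.continuous_re.comp (continuous_finsetSum _ fun k _ => ?_)).aestronglyMeasurable
    unfold gc
    refine Continuous.mul ?_ ((ee_continuous k).comp (by fun_prop))
    exact Complex.continuous_ofReal.comp (by fun_prop)
  · have h1 : ∀ᵐ q : V × (ℝ × V) ∂((volume.restrict cube).prod
        (volume.restrict (Ioo 0 T ×ˢ cube))), q.2 ∈ Ioo 0 T ×ˢ cube :=
      Measure.quasiMeasurePreserving_snd.ae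
        (ae_restrict_mem (measurableSet_Ioo.prod measurableSet_Icc))
    filter_upwards [h1] with q hq
    have h2 := (summable_term (summable_gc hν hq.1.1) (q.1 - q.2.2)).hasSum
    exact (Complex.continuous_re.tendsto _).comp h2

/-! ### The superposition -/

/-- The measure of the space-time slab. -/
noncomputable abbrev mu (T : ℝ) : Measure (ℝ × V) := volume.restrict (Ioo 0 T ×ˢ cube)

/-- The superposition of heat kernels. -/
noncomputable def mm (ν T : ℝ) (χ : ℝ → ℝ) (w : ℝ × V → ℝ) (x : V) : ℝ :=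
  ∫ z, χ z.1 * G ν z.1 (x - z.2) * w z ∂(mu T)

theorem mm_per (ν T : ℝ) (χ : ℝ → ℝ) (w : ℝ × V → ℝ) : Per (mm ν T χ w) := by
  intro i x
  unfold mm
  congr 1
  funext z
  have h : G ν z.1 (x + Pi.single i 1 - z.2) = G ν z.1 (x - z.2) := G_per ν z.1 z.2 i x
  rw [h]

section
variable {ν T : ℝ} (hν : 0 < ν) {χ : ℝ → ℝ} (hχ : Continuous χ) (hχ1 : ∀ t, |χ t| ≤ 1)
  {w : ℝ × V → ℝ} (hw : Integrable w (mu T))

include hν hχ hχ1 hw

theorem mm_int2 : Integrable (fun q : V × (ℝ × V) => χ q.2.1 * G ν q.2.1 (q.1 - q.2.2) * w q.2)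
    ((volume.restrict cube).prod (mu T)) := by
  have := cube_finite
  have hmem : ∀ᵐ z : ℝ × V ∂(mu T), z ∈ Ioo 0 T ×ˢ cube :=
    ae_restrict_mem (measurableSet_Ioo.prod measurableSet_Icc)
  have hmeas : AEStronglyMeasurable
      (fun q : V × (ℝ × V) => χ q.2.1 * G ν q.2.1 (q.1 - q.2.2) * w q.2)
      ((volume.restrict cube).prod (mu T)) :=
    ((hχ.comp (by fun_prop)).aestronglyMeasurable.mul (G_meas hν)).mul
      hw.aestronglyMeasurable.comp_snd
  rw [integrable_prod_iff' hmeas]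
  constructor
  · filter_upwards [hmem] with z hz
    have h : Continuous fun x : V => χ z.1 * G ν z.1 (x - z.2) * w z :=
      (continuous_const.mul ((G_cont hν hz.1.1).comp (by fun_prop))).mul continuous_const
    exact integrableOn_cube h
  · have e : (fun z : ℝ × V => |χ z.1| * |w z|) =ᵐ[mu T]
        fun z => ∫ x, ‖χ z.1 * G ν z.1 (x - z.2) * w z‖ ∂(volume.restrict cube) := by
      filter_upwards [hmem] with z hz
      have e1 : (fun x : V => ‖χ z.1 * G ν z.1 (x - z.2) * w z‖)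
          = fun x => (|χ z.1| * |w z|) * G ν z.1 (x - z.2) := by
        funext x
        rw [Real.norm_eq_abs, abs_mul, abs_mul, abs_of_nonneg (G_nonneg hν hz.1.1 _)]
        ring
      rw [e1, integral_const_mul, int_G hν hz.1.1, mul_one]
    refine Integrable.congr ?_ e
    refine Integrable.bdd_mul (c := 1) hw.abs ?_ (Eventually.of_forall fun z => ?_)
    · exact (hχ.abs.comp continuous_fst).aestronglyMeasurable
    · rw [Real.norm_eq_abs, abs_abs]
      exact hχ1 _

theorem mm_int : IntegrableOn (mm ν T χ w) cube :=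
  (mm_int2 hν hχ hχ1 hw).integral_prod_left

theorem fr_mm (k : K3) : fr (mm ν T χ w) k
    = ∫ z, (χ z.1 : ℂ) * gc ν z.1 k * ee (-k) z.2 * (w z : ℂ) ∂(mu T) := by
  have := cube_finite
  have hmem : ∀ᵐ z : ℝ × V ∂(mu T), z ∈ Ioo 0 T ×ˢ cube :=
    ae_restrict_mem (measurableSet_Ioo.prod measurableSet_Icc)
  have h2 := mm_int2 hν hχ hχ1 hw
  have h3 : Integrable (Function.uncurry fun (x : V) (z : ℝ × V) =>
      ee (-k) x * ((χ z.1 * G ν z.1 (x - z.2) * w z : ℝ) : ℂ))
      ((volume.restrict cube).prod (mu T)) := by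
    have h4 : Integrable (fun q : V × (ℝ × V) =>
        ((χ q.2.1 * G ν q.2.1 (q.1 - q.2.2) * w q.2 : ℝ) : ℂ))
        ((volume.restrict cube).prod (mu T)) := h2.ofReal
    refine Integrable.bdd_mul (c := 1) h4 ?_ (Eventually.of_forall fun q => ?_)
    · exact ((ee_continuous (-k)).comp continuous_fst).aestronglyMeasurable
    · rw [norm_ee]
  have e1 : fr (mm ν T χ w) k = ∫ x in cube, ∫ z,
      ee (-k) x * ((χ z.1 * G ν z.1 (x - z.2) * w z : ℝ) : ℂ) ∂(mu T) := by
    rw [fr, fc]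
    congr 1
    funext x
    rw [integral_const_mul, mm, integral_complex_ofReal]
  rw [e1, integral_integral_swap h3]
  refine integral_congr_ae ?_
  filter_upwards [hmem] with z hz
  have e2 : ∀ x : V, ee (-k) x * ((χ z.1 * G ν z.1 (x - z.2) * w z : ℝ) : ℂ)
      = ((χ z.1 : ℂ) * (w z : ℂ)) * (ee (-k) x * (G ν z.1 (x - z.2) : ℂ)) := by
    intro x
    push_cast
    ring
  simp_rw [e2]
  rw [integral_const_mul, int_ee_G hν hz.1.1]
  ring

end

end Pool.Agent.Run7.h219.WQ
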