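import Pool.Agent.Run7.h219.WQ.NecB
import Pool.Agent.Run7.h744.WS.Al
import Pool.Agent.H459R3.NS.Phys2

/-!
The weak formulation with characters, and the necessity of `c = P div R`, `R ∈ L¹`.
-/

set_option autoImplicit false

open MeasureTheory Set Filter Topology
open scoped ContDiff ComplexConjugate ENNReal

namespace Pool.Agent.Run7.h219.WQ

open H459R3.NS Pool.Agent.Run7.h782 Pool.Agent.Run7.h782.GD
open Pool.Agent.Run7.h782.WS Pool.Agent.Run7.h744.WS Pool.Agent.Run7.h782.WQ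

/-! ### Test fields -/

/-- Real parts of multiples of a character. -/
noncomputable def gg (k : K3) (w : ℂ) (x : V) : ℝ := (w * ee (-k) x).re

theorem gg_smooth (k : K3) (w : ℂ) : ContDiff ℝ ∞ (gg k w) :=
  Complex.reCLM.contDiff.comp (contDiff_const.mul (ee_contDiff _))

theorem gg_per (k : K3) (w : ℂ) : Per (gg k w) := fun i x => by rw [gg, gg, ee_per]

theorem pd_gg (k : K3) (w : ℂ) (j : Fin 3) :
    pd j (gg k w) = gg k (-(2 * Real.pi * Complex.I * (k j : ℂ)) * w) := by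
  funext x
  have h1 : HasFDerivAt (ee (-k)) (fderiv ℝ (ee (-k)) x) x :=
    ((ee_contDiff (-k) (n := 1)).differentiable (by norm_num) x).hasFDerivAt
  have h2 : HasFDerivAt (gg k w) (Complex.reCLM.comp (w • fderiv ℝ (ee (-k)) x)) x :=
    Complex.reCLM.hasFDerivAt.comp x (h1.const_mul w)
  have h3 := pd_ee (-k) j x
  unfold pd at h3 ⊢
  rw [h2.fderiv, gg]
  simp only [ContinuousLinearMap.comp_apply, smul_apply, Complex.reCLM_apply, smul_eq_mul]
  rw [h3]
  congr 1
  simp only [Pi.neg_apply, Int.cast_neg]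
  ring

theorem gg_sum {ι : Type*} (s : Finset ι) (k : K3) (w : ι → ℂ) (x : V) :
    ∑ i ∈ s, gg k (w i) x = gg k (∑ i ∈ s, w i) x := by
  unfold gg
  rw [Finset.sum_mul, Complex.re_sum]

theorem gg_mul (k : K3) (r : ℝ) (w : ℂ) (x : V) : r * gg k w x = gg k (r * w) x := by
  unfold gg
  rw [mul_assoc, Complex.re_ofReal_mul]

theorem fr_gg (k : K3) (w : ℂ) (l : K3) :
    fr (gg k w) l = (if l = -k then w / 2 else 0) + (if l = k then conj w / 2 else 0) := by
  have e : ∀ x, ee (-l) x * ((gg k w x : ℝ) : ℂ)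
      = w / 2 * ee (-l - k) x + conj w / 2 * ee (-l + k) x := by
    intro x
    rw [gg, Complex.re_eq_add_conj, map_mul, ee_neg k, Complex.conj_conj, sub_eq_add_neg,
      ee_add_left, ee_add_left, ee_neg k]
    ring
  rw [fr, fc]
  simp_rw [e]
  rw [integral_add ((integrableOn_cube (ee_continuous _)).const_mul _)
    ((integrableOn_cube (ee_continuous _)).const_mul _), integral_const_mul, integral_const_mul,
    integral_ee, integral_ee]
  have h1 : (-l - k = 0) ↔ l = -k := by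
    rw [sub_eq_zero]
    exact neg_eq_iff_eq_neg
  have h2 : (-l + k = 0) ↔ l = k := by
    rw [neg_add_eq_zero]
  simp only [h1, h2]
  congr 1 <;> split_ifs <;> ring

theorem pr_gg {c : Cf} (hc : Herm c) (k : K3) (i : Fin 3) (w : ℂ) :
    pr c i (gg k w) = (w * c k i).re := by
  have h1 := hasSum_ite_eq (-k) (c (-k) i * (conj w / 2))
  have h2 := hasSum_ite_eq k (c k i * (w / 2))
  have h := h1.add h2
  have e : (fun l => c l i * conj (fr (gg k w) l)) = fun l =>
      (if l = -k then c (-k) i * (conj w / 2) else 0) + (if l = k then c k i * (w / 2) else 0) := by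
    funext l
    rw [fr_gg, map_add, mul_add]
    congr 1
    · split_ifs with hl
      · rw [hl, map_div₀, map_ofNat]
      · simp
    · split_ifs with hl
      · rw [hl, map_div₀, map_ofNat, Complex.conj_conj]
      · simp
  rw [← e] at h
  rw [pr, h.tsum_eq, hc k i, Complex.add_re, Complex.mul_re, Complex.mul_re, Complex.mul_re]
  simp
  ring

/-! ### The coefficients -/

/-- The weight in time. -/
noncomputable def hk (ν : ℝ) (χ : ℝ → ℝ) (k : K3) (t : ℝ) : ℝ :=
  (2 * lam ν k * χ t - deriv χ t) * Real.exp (-(lam ν k * t))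

/-- The first term. -/
noncomputable def Ak (ν T : ℝ) (χ : ℝ → ℝ) (u : ℝ → V → V) (k : K3) : C3 := fun i =>
  ∫ z, (hk ν χ k z.1 : ℂ) * ee (-k) z.2 * (u z.1 z.2 i : ℂ) ∂(mu T)

/-- The second term. -/
noncomputable def Mk (ν T : ℝ) (χ : ℝ → ℝ) (u : ℝ → V → V) (k : K3) (i j : Fin 3) : ℂ :=
  ∫ z, (χ z.1 : ℂ) * gc ν z.1 k * ee (-k) z.2 * ((u z.1 z.2 i * u z.1 z.2 j : ℝ) : ℂ) ∂(mu T)

theorem int_u {ν T : ℝ} {c : Cf} {u : ℝ → V → V} (hV : VW ν T c u) (i : Fin 3) :
    Integrable (fun z : ℝ × V => u z.1 z.2 i) (mu T) := by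
  have hfin : IsFiniteMeasure (mu T) := by
    constructor
    rw [Measure.restrict_apply_univ]
    refine lt_of_le_of_lt (measure_mono (prod_mono Ioo_subset_Icc_self le_rfl))
      ((isCompact_Icc (a := (0 : ℝ)) (b := T)).prod
        (isCompact_Icc (a := (0 : V)) (b := 1))).measure_lt_top
  exact ((memLp_two_iff_integrable_sq (hV.meas i)).2 (hV.sq i)).integrable (by norm_num)

theorem int_uu {ν T : ℝ} {c : Cf} {u : ℝ → V → V} (hV : VW ν T c u) (i j : Fin 3) :
    Integrable (fun z : ℝ × V => u z.1 z.2 i * u z.1 z.2 j) (mu T) :=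
  ((memLp_two_iff_integrable_sq (hV.meas i)).2 (hV.sq i)).integrable_mul
    ((memLp_two_iff_integrable_sq (hV.meas j)).2 (hV.sq j))

theorem int_cont_mul {T : ℝ} {f : ℝ × V → ℂ} (hf : Continuous f) {w : ℝ × V → ℝ}
    (hw : Integrable w (mu T)) : Integrable (fun z => f z * (w z : ℂ)) (mu T) := by
  have hK : IsCompact (Icc 0 T ×ˢ cube : Set (ℝ × V)) := isCompact_Icc.prod isCompact_Icc
  obtain ⟨C, hC⟩ := hK.exists_bound_of_continuousOn hf.continuousOn
  refine Integrable.bdd_mul (c := C) hw.ofReal hf.aestronglyMeasurable ?_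
  have hmem : ∀ᵐ z : ℝ × V ∂(mu T), z ∈ Ioo 0 T ×ˢ cube :=
    ae_restrict_mem (measurableSet_Ioo.prod measurableSet_Icc)
  filter_upwards [hmem] with z hz
  exact hC z ⟨Ioo_subset_Icc_self hz.1, hz.2⟩

theorem hk_cont {ν : ℝ} {χ : ℝ → ℝ} (hχ : ContDiff ℝ ∞ χ) (k : K3) : Continuous (hk ν χ k) := by
  have h1 : Continuous (deriv χ) := hχ.continuous_deriv (by norm_cast)
  have h2 := hχ.continuous
  unfold hk
  fun_prop

theorem contA {ν : ℝ} {χ : ℝ → ℝ} (hχ : ContDiff ℝ ∞ χ) (k : K3) :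
    Continuous fun z : ℝ × V => (hk ν χ k z.1 : ℂ) * ee (-k) z.2 :=
  (Complex.continuous_ofReal.comp ((hk_cont hχ k).comp continuous_fst)).mul
    ((ee_continuous _).comp continuous_snd)

theorem contM {ν : ℝ} {χ : ℝ → ℝ} (hχ : ContDiff ℝ ∞ χ) (k : K3) :
    Continuous fun z : ℝ × V => (χ z.1 : ℂ) * gc ν z.1 k * ee (-k) z.2 := by
  refine ((Complex.continuous_ofReal.comp (hχ.continuous.comp continuous_fst)).mul ?_).mul
    ((ee_continuous _).comp continuous_snd)
  unfold gc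
  exact Complex.continuous_ofReal.comp (by fun_prop)

/-- The weak formulation tested with a character. -/
theorem weak_char {ν T : ℝ} {c : Cf} (hc : Herm c) {u : ℝ → V → V}
    (hV : VW ν T c u) {χ : ℝ → ℝ} (hχ : ContDiff ℝ ∞ χ) (h0 : χ 0 = 1)
    (hs : ∃ s < T, ∀ t, s ≤ t → χ t = 0) (k : K3) (ξ : Fin 3 → ℝ)
    (hξ : ∑ j, (k j : ℂ) * (ξ j : ℂ) = 0) :
    ∑ i, (ξ i : ℂ) * c k i = ∑ i, (ξ i : ℂ) * Ak ν T χ u k i
      + 2 * Real.pi * Complex.I * ∑ i, ∑ j, (k i : ℂ) * (ξ j : ℂ) * Mk ν T χ u k i j := by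
  set Φ : ℝ × V → ℂ := fun z =>
    -(∑ i, (ξ i : ℂ) * ((hk ν χ k z.1 : ℂ) * ee (-k) z.2 * (u z.1 z.2 i : ℂ)))
      - 2 * Real.pi * Complex.I * ∑ i, ∑ j, (k i : ℂ) * (ξ j : ℂ)
        * ((χ z.1 : ℂ) * gc ν z.1 k * ee (-k) z.2 * ((u z.1 z.2 i * u z.1 z.2 j : ℝ) : ℂ)) with hΦ
  have iA : ∀ i : Fin 3, Integrable (fun z : ℝ × V =>
      (ξ i : ℂ) * ((hk ν χ k z.1 : ℂ) * ee (-k) z.2 * (u z.1 z.2 i : ℂ))) (mu T) := fun i =>
    (int_cont_mul (contA hχ k) (int_u hV i)).const_mul _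
  have iM : ∀ i j : Fin 3, Integrable (fun z : ℝ × V => (k i : ℂ) * (ξ j : ℂ)
      * ((χ z.1 : ℂ) * gc ν z.1 k * ee (-k) z.2 * ((u z.1 z.2 i * u z.1 z.2 j : ℝ) : ℂ)))
      (mu T) := fun i j => (int_cont_mul (contM hχ k) (int_uu hV i j)).const_mul _
  have iA' : Integrable (fun z : ℝ × V =>
      ∑ i, (ξ i : ℂ) * ((hk ν χ k z.1 : ℂ) * ee (-k) z.2 * (u z.1 z.2 i : ℂ))) (mu T) :=
    integrable_finsetSum _ fun i _ => iA i
  have iM' : Integrable (fun z : ℝ × V => ∑ i, ∑ j, (k i : ℂ) * (ξ j : ℂ)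
      * ((χ z.1 : ℂ) * gc ν z.1 k * ee (-k) z.2 * ((u z.1 z.2 i * u z.1 z.2 j : ℝ) : ℂ)))
      (mu T) := integrable_finsetSum _ fun i _ => integrable_finsetSum _ fun j _ => iM i j
  have iΦ : Integrable Φ (mu T) := iA'.neg.sub (iM'.const_mul _)
  have eΦ : ∫ z, Φ z ∂(mu T) = -(∑ i, (ξ i : ℂ) * Ak ν T χ u k i)
      - 2 * Real.pi * Complex.I * ∑ i, ∑ j, (k i : ℂ) * (ξ j : ℂ) * Mk ν T χ u k i j := by
    have iA'' : Integrable (fun z : ℝ × V =>
        -(∑ i, (ξ i : ℂ) * ((hk ν χ k z.1 : ℂ) * ee (-k) z.2 * (u z.1 z.2 i : ℂ)))) (mu T) :=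
      iA'.neg
    simp only [hΦ]
    rw [integral_sub iA'' (iM'.const_mul _), integral_neg, integral_const_mul,
      integral_finsetSum _ (fun i _ => iA i),
      integral_finsetSum _ (fun i _ => integrable_finsetSum _ fun j _ => iM i j)]
    congr 2
    · exact Finset.sum_congr rfl fun i _ => integral_const_mul _ _
    · refine Finset.sum_congr rfl fun i _ => ?_
      rw [integral_finsetSum _ (fun j _ => iM i j)]
      exact Finset.sum_congr rfl fun j _ => integral_const_mul _ _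
  -- the real identity
  have key : ∀ w : ℂ, (w * (∑ i, (ξ i : ℂ) * c k i + ∫ z, Φ z ∂(mu T))).re = 0 := by
    intro w
    set X : ℝ → ℝ := fun t => χ t * Real.exp (-(lam ν k * t)) with hX
    have hXs : ContDiff ℝ ∞ X := by
      refine hχ.mul (Real.contDiff_exp.comp ?_)
      exact (contDiff_const.mul contDiff_id).neg
    have hXd : ∀ t, deriv X t = (deriv χ t - lam ν k * χ t) * Real.exp (-(lam ν k * t)) := by
      intro t
      have h1 : HasDerivAt χ (deriv χ t) t :=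
        (hχ.differentiable (by norm_num) t).hasDerivAt
      have h2 : HasDerivAt (fun s => Real.exp (-(lam ν k * s)))
          (Real.exp (-(lam ν k * t)) * (-(lam ν k * 1))) t :=
        (((hasDerivAt_id t).const_mul (lam ν k)).neg).exp
      have h3 : HasDerivAt X _ t := h1.mul h2
      rw [h3.deriv]
      ring
    set φ : V → V := fun x i => gg k ((ξ i : ℂ) * w) x with hφ
    have hφs : ContDiff ℝ ∞ φ := contDiff_pi.2 fun i => gg_smooth k _
    have hφp : Per φ := fun i x => funext fun j => gg_per k _ i x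
    have hpd : ∀ i j : Fin 3, pd i (fun y => φ y j)
        = gg k (-(2 * Real.pi * Complex.I * (k i : ℂ)) * ((ξ j : ℂ) * w)) := fun i j =>
      pd_gg k ((ξ j : ℂ) * w) i
    have hdiv : ∀ x, ∑ i, pd i (fun y => φ y i) x = 0 := by
      intro x
      have e : ∀ i : Fin 3, pd i (fun y => φ y i) x
          = gg k (-(2 * Real.pi * Complex.I * (k i : ℂ)) * ((ξ i : ℂ) * w)) x := fun i => by
        rw [hpd]
      rw [Finset.sum_congr rfl fun i _ => e i, gg_sum]
      have e2 : ∑ i, -(2 * Real.pi * Complex.I * (k i : ℂ)) * ((ξ i : ℂ) * w)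
          = -(2 * Real.pi * Complex.I * w) * ∑ j, (k j : ℂ) * (ξ j : ℂ) := by
        rw [Finset.mul_sum]
        exact Finset.sum_congr rfl fun i _ => by ring
      rw [e2, hξ, mul_zero, gg, zero_mul, Complex.zero_re]
    have hlap : ∀ (i : Fin 3) (x : V), ∑ j, pd j (pd j (fun y => φ y i)) x
        = gg k (-((4 * Real.pi ^ 2 * GD.sq k : ℝ) : ℂ) * ((ξ i : ℂ) * w)) x := by
      intro i x
      have e : ∀ j : Fin 3, pd j (pd j (fun y => φ y i)) x
          = gg k (-(2 * Real.pi * Complex.I * (k j : ℂ))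
            * (-(2 * Real.pi * Complex.I * (k j : ℂ)) * ((ξ i : ℂ) * w))) x := fun j => by
        rw [hpd, pd_gg]
      rw [Finset.sum_congr rfl fun j _ => e j, gg_sum]
      congr 1
      rw [GD.sq]
      push_cast
      rw [Finset.mul_sum, ← Finset.sum_neg_distrib, Finset.sum_mul]
      refine Finset.sum_congr rfl fun j _ => ?_
      linear_combination (4 * Real.pi ^ 2 * (k j : ℂ) ^ 2 * ((ξ i : ℂ) * w)) * Complex.I_sq
    have hX0 : X 0 = 1 := by simp [hX, h0]
    have hXT : ∃ s < T, ∀ t, s ≤ t → X t = 0 := by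
      obtain ⟨s, hsT, hs0⟩ := hs
      exact ⟨s, hsT, fun t ht => by simp [hX, hs0 t ht]⟩
    have hw := hV.weak X φ hXs hXT hφs hφp hdiv
    rw [hX0, one_mul] at hw
    have e1 : ∑ i, pr c i (fun x => φ x i) = (w * ∑ i, (ξ i : ℂ) * c k i).re := by
      have e : ∀ i : Fin 3, pr c i (fun x => φ x i) = ((ξ i : ℂ) * w * c k i).re := fun i =>
        pr_gg hc k i _
      rw [Finset.sum_congr rfl fun i _ => e i, ← Complex.re_sum, Finset.mul_sum]
      congr 1
      exact Finset.sum_congr rfl fun i _ => by ring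
    have e2 : (∫ z in Ioo 0 T ×ˢ cube, (deriv X z.1 * (∑ i, u z.1 z.2 i * φ z.2 i)
        + X z.1 * (∑ i, ∑ j, u z.1 z.2 i * u z.1 z.2 j * pd i (fun y => φ y j) z.2
          + ν * ∑ i, u z.1 z.2 i * ∑ j, pd j (pd j (fun y => φ y i)) z.2)))
        = (w * ∫ z, Φ z ∂(mu T)).re := by
      have e3 : (w * ∫ z, Φ z ∂(mu T)).re = ∫ z, (w * Φ z).re ∂(mu T) := by
        rw [← integral_const_mul]
        exact ((Complex.reCLM.integral_comp_comm (iΦ.const_mul w))).symm
      rw [e3]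
      refine integral_congr_ae (Eventually.of_forall fun z => ?_)
      show deriv X z.1 * (∑ i, u z.1 z.2 i * φ z.2 i)
        + X z.1 * (∑ i, ∑ j, u z.1 z.2 i * u z.1 z.2 j * pd i (fun y => φ y j) z.2
          + ν * ∑ i, u z.1 z.2 i * ∑ j, pd j (pd j (fun y => φ y i)) z.2) = (w * Φ z).re
      have a1 : ∑ i, u z.1 z.2 i * φ z.2 i
          = gg k (∑ i, (u z.1 z.2 i : ℂ) * ((ξ i : ℂ) * w)) z.2 := by
        rw [← gg_sum]
        exact Finset.sum_congr rfl fun i _ => gg_mul _ _ _ _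
      have a2 : ∑ i, ∑ j, u z.1 z.2 i * u z.1 z.2 j * pd i (fun y => φ y j) z.2
          = gg k (∑ i, ∑ j, ((u z.1 z.2 i * u z.1 z.2 j : ℝ) : ℂ)
            * (-(2 * Real.pi * Complex.I * (k i : ℂ)) * ((ξ j : ℂ) * w))) z.2 := by
        rw [← gg_sum]
        refine Finset.sum_congr rfl fun i _ => ?_
        rw [← gg_sum]
        refine Finset.sum_congr rfl fun j _ => ?_
        rw [hpd, gg_mul]
      have a3 : ν * ∑ i, u z.1 z.2 i * ∑ j, pd j (pd j (fun y => φ y i)) z.2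
          = gg k ((ν : ℂ) * ∑ i, (u z.1 z.2 i : ℂ)
            * (-((4 * Real.pi ^ 2 * GD.sq k : ℝ) : ℂ) * ((ξ i : ℂ) * w))) z.2 := by
        rw [← gg_mul, ← gg_sum]
        congr 1
        refine Finset.sum_congr rfl fun i _ => ?_
        rw [hlap, gg_mul]
      rw [a1, a2, a3]
      have a4 : ∀ (p q : ℂ), gg k p z.2 + gg k q z.2 = gg k (p + q) z.2 := by
        intro p q
        rw [gg, gg, gg, add_mul, Complex.add_re]
      rw [a4, gg_mul, gg_mul, a4, gg]
      congr 1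
      rw [hΦ, hXd, hX]
      simp only [hk, gc, lam]
      push_cast
      simp only [Fin.sum_univ_three]
      ring
    have e4 : (w * (∑ i, (ξ i : ℂ) * c k i + ∫ z, Φ z ∂(mu T))).re
        = (w * ∑ i, (ξ i : ℂ) * c k i).re + (w * ∫ z, Φ z ∂(mu T)).re := by
      rw [mul_add, Complex.add_re]
    rw [e4, ← e1, ← e2]
    exact hw
  have hz : ∑ i, (ξ i : ℂ) * c k i + ∫ z, Φ z ∂(mu T) = 0 := by
    refine Complex.ext ?_ ?_
    · have := key 1
      rwa [one_mul] at this
    · have := key (-Complex.I)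
      simpa using this
  rw [eΦ] at hz
  linear_combination hz

end Pool.Agent.Run7.h219.WQ
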