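import Pool.Agent.Run7.h219.WQ.NecA

/-!
Riesz-Fischer on the period cell and an inequality of Bessel in space-time.
-/

set_option autoImplicit false

open MeasureTheory Set Filter Topology
open scoped ContDiff ComplexConjugate ENNReal InnerProductSpace

namespace Pool.Agent.Run7.h219.WQ

open H459R3.NS Pool.Agent.Run7.h782 Pool.Agent.Run7.h782.GD

attribute [local instance] instMeasureSpaceUnitAddCircle

theorem torus_finite : IsFiniteMeasure (volume : Measure (UnitAddTorus (Fin 3))) := by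
  constructor
  have h := UnitAddTorus.lintegral_preimage (d := Fin 3) (fun _ => 1) 0
  rw [Measure.restrict_congr_set cell_ae, lintegral_one, lintegral_one,
    Measure.restrict_apply_univ, volume_cube] at h
  rw [h]
  exact ENNReal.one_lt_top

/-! ### Riesz-Fischer -/

open Classical in
/-- The function on the torus with the coefficients `a`. -/
noncomputable def rfc (a : K3 → ℂ) : UnitAddTorus (Fin 3) → ℂ :=
  if h : Memℓp a 2 then ⇑(UnitAddTorus.mFourierBasis.repr.symm (⟨a, h⟩ : lp (fun _ : K3 => ℂ) 2))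
  else 0

/-- The real function on the space with the coefficients `a`. -/
noncomputable def rf (a : K3 → ℂ) (x : V) : ℝ := (rfc a (cov x)).re

theorem cov_per : Per cov := by
  intro i x
  funext j
  unfold cov
  by_cases h : j = i
  · subst h
    simp
  · simp [h]

theorem rf_per (a : K3 → ℂ) : Per (rf a) := fun i x => by rw [rf, rf, cov_per]

theorem cov_cont : Continuous cov := cov_quot.continuous

theorem rfc_coeff {a : K3 → ℂ} (h : Memℓp a 2) (k : K3) :
    ∫ x in cube, ee (-k) x * rfc a (cov x) = a k := by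
  have h1 := UnitAddTorus.mFourierBasis_repr
    (UnitAddTorus.mFourierBasis.repr.symm (⟨a, h⟩ : lp (fun _ : K3 => ℂ) 2)) k
  rw [LinearIsometryEquiv.apply_symm_apply, UnitAddTorus.mFourierCoeff, integral_torus] at h1
  have h2 : a k = (⟨a, h⟩ : lp (fun _ : K3 => ℂ) 2) k := rfl
  rw [h2, h1]
  refine integral_congr_ae (Eventually.of_forall fun x => ?_)
  show ee (-k) x * rfc a (cov x) = _ • _
  rw [mFourier_cov, smul_eq_mul, rfc, dif_pos h]

theorem rfc_int {a : K3 → ℂ} (h : Memℓp a 2) :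
    Integrable (fun x => rfc a (cov x)) (volume.restrict cube) := by
  set f := UnitAddTorus.mFourierBasis.repr.symm (⟨a, h⟩ : lp (fun _ : K3 => ℂ) 2) with hf
  have e : rfc a = ⇑f := by rw [rfc, dif_pos h]
  have := torus_finite
  have h1 : Integrable (⇑f) (volume : Measure (UnitAddTorus (Fin 3))) :=
    (Lp.memLp f).integrable (by norm_num)
  rw [e]
  refine ⟨((Lp.stronglyMeasurable f).comp_measurable cov_cont.measurable).aestronglyMeasurable, ?_⟩
  have h2 := h1.hasFiniteIntegral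
  rw [hasFiniteIntegral_iff_enorm] at h2 ⊢
  rw [UnitAddTorus.lintegral_preimage _ 0, Measure.restrict_congr_set cell_ae] at h2
  exact h2

theorem rf_int {a : K3 → ℂ} (h : Memℓp a 2) : IntegrableOn (rf a) cube :=
  (rfc_int h).re

theorem fr_rf {a : K3 → ℂ} (h : Memℓp a 2) (ha : ∀ k, a (-k) = conj (a k)) (k : K3) :
    fr (rf a) k = a k := by
  have h1 := rfc_coeff h k
  have h2 := rfc_coeff h (-k)
  have i1 : Integrable (fun x => ee (-k) x * rfc a (cov x)) (volume.restrict cube) := by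
    refine Integrable.bdd_mul (c := 1) (rfc_int h) (ee_continuous _).aestronglyMeasurable
      (Eventually.of_forall fun x => ?_)
    rw [norm_ee]
  have i2 : Integrable (fun x => ee (-k) x * conj (rfc a (cov x))) (volume.restrict cube) := by
    refine Integrable.bdd_mul (c := 1) ?_ (ee_continuous _).aestronglyMeasurable
      (Eventually.of_forall fun x => ?_)
    · exact (Complex.conjCLE : ℂ →L[ℝ] ℂ).integrable_comp (rfc_int h)
    · rw [norm_ee]
  have h3 : ∫ x in cube, ee (-k) x * conj (rfc a (cov x)) = a k := by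
    have e : ∀ x, ee (-k) x * conj (rfc a (cov x)) = conj (ee (- -k) x * rfc a (cov x)) := by
      intro x
      rw [map_mul, neg_neg, ← ee_neg]
    simp_rw [e]
    rw [integral_conj, h2, ha, Complex.conj_conj]
  have e : ∀ x, ee (-k) x * ((rf a x : ℝ) : ℂ) = (1 / 2 : ℂ) * (ee (-k) x * rfc a (cov x)
      + ee (-k) x * conj (rfc a (cov x))) := by
    intro x
    rw [rf, Complex.re_eq_add_conj]
    ring
  rw [fr, fc]
  simp_rw [e]
  rw [integral_const_mul, integral_add i1 i2, h1, h3]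
  ring

/-! ### Bessel -/

theorem bessel {H : Type*} [NormedAddCommGroup H] [InnerProductSpace ℂ H] (u : H) (F : Finset K3)
    (e : K3 → H) (N : K3 → ℝ) (hN : ∀ k ∈ F, 0 < N k) (he : ∀ k ∈ F, ‖e k‖ ^ 2 ≤ N k)
    (ho : ∀ k ∈ F, ∀ l ∈ F, k ≠ l → ⟪e k, e l⟫_ℂ = 0) :
    ∑ k ∈ F, ‖⟪e k, u⟫_ℂ‖ ^ 2 / N k ≤ ‖u‖ ^ 2 := by
  set β : K3 → ℂ := fun k => ⟪e k, u⟫_ℂ / N k with hβ
  set P : H := ∑ k ∈ F, β k • e k with hP
  have h1 : RCLike.re ⟪P, u⟫_ℂ = ∑ k ∈ F, ‖⟪e k, u⟫_ℂ‖ ^ 2 / N k := by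
    rw [hP, sum_inner, map_sum]
    refine Finset.sum_congr rfl fun k hk => ?_
    rw [inner_smul_left, hβ]
    simp only [map_div₀, Complex.conj_ofReal]
    rw [div_mul_eq_mul_div, ← Complex.normSq_eq_conj_mul_self, Complex.normSq_eq_norm_sq]
    have : ((‖⟪e k, u⟫_ℂ‖ ^ 2 : ℝ) : ℂ) / (N k : ℂ) = ((‖⟪e k, u⟫_ℂ‖ ^ 2 / N k : ℝ) : ℂ) := by
      push_cast; ring
    rw [this]
    exact Complex.ofReal_re _
  have h2 : ‖P‖ ^ 2 ≤ ∑ k ∈ F, ‖⟪e k, u⟫_ℂ‖ ^ 2 / N k := by
    have e1 : ⟪P, P⟫_ℂ = ∑ k ∈ F, conj (β k) * β k * ⟪e k, e k⟫_ℂ := by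
      rw [hP, sum_inner]
      refine Finset.sum_congr rfl fun k hk => ?_
      rw [inner_smul_left, inner_sum, Finset.sum_eq_single k]
      · rw [inner_smul_right]; ring
      · intro l hl hlk
        rw [inner_smul_right, ho k hk l hl (Ne.symm hlk), mul_zero]
      · intro h; exact absurd hk h
    have e2 : ‖P‖ ^ 2 = RCLike.re ⟪P, P⟫_ℂ := by rw [← inner_self_eq_norm_sq (𝕜 := ℂ)]
    rw [e2, e1, map_sum]
    refine Finset.sum_le_sum fun k hk => ?_
    have hNk := hN k hk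
    rw [← Complex.normSq_eq_conj_mul_self, Complex.normSq_eq_norm_sq, inner_self_eq_norm_sq_to_K]
    have e3 : RCLike.re (((‖β k‖ ^ 2 : ℝ) : ℂ) * ((‖e k‖ : ℂ)) ^ 2) = ‖β k‖ ^ 2 * ‖e k‖ ^ 2 := by
      rw [← Complex.ofReal_pow, ← Complex.ofReal_mul]
      exact Complex.ofReal_re _
    refine le_trans (le_of_eq e3) ?_
    rw [hβ]
    simp only [norm_div, Complex.norm_real, Real.norm_eq_abs, abs_of_pos hNk]
    rw [div_pow, div_mul_eq_mul_div, div_le_div_iff₀ (by positivity) hNk]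
    have := he k hk
    have h0 := sq_nonneg ‖⟪e k, u⟫_ℂ‖
    nlinarith [mul_le_mul_of_nonneg_left this (mul_nonneg h0 hNk.le)]
  have h3 : ‖u - P‖ ^ 2 = ‖u‖ ^ 2 - 2 * RCLike.re ⟪u, P⟫_ℂ + ‖P‖ ^ 2 := @norm_sub_sq ℂ _ _ _ _ u P
  have h4 : RCLike.re ⟪u, P⟫_ℂ = RCLike.re ⟪P, u⟫_ℂ := inner_re_symm _ _
  have h5 := sq_nonneg ‖u - P‖
  rw [h3, h4, h1] at h5
  linarith

theorem integrable_cont {E : Type*} [NormedAddCommGroup E] {T : ℝ} {f : ℝ × V → E}
    (hf : Continuous f) : Integrable f (mu T) := by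
  have hK : IsCompact (Icc 0 T ×ˢ cube : Set (ℝ × V)) := isCompact_Icc.prod isCompact_Icc
  exact (hf.continuousOn.integrableOn_compact hK).mono_set
    (prod_mono Ioo_subset_Icc_self le_rfl)

theorem int_mu {T : ℝ} (f : ℝ → ℂ) (g : V → ℂ) :
    ∫ z, f z.1 * g z.2 ∂(mu T) = (∫ t in Ioo 0 T, f t) * ∫ x in cube, g x := by
  have h := setIntegral_prod_mul (μ := (volume : Measure ℝ)) (ν := (volume : Measure V)) f g
    (Ioo 0 T) cube
  rw [← Measure.volume_eq_prod] at h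
  exact h

theorem sum_A {T : ℝ} {u : ℝ × V → ℝ} (hu : AEStronglyMeasurable u (mu T))
    (hu2 : Integrable (fun z => u z ^ 2) (mu T)) (h : K3 → ℝ → ℝ) (hc : ∀ k, Continuous (h k))
    (N : K3 → ℝ) (F : Finset K3) (hN : ∀ k ∈ F, 0 < N k)
    (hb : ∀ k ∈ F, ∫ t in Ioo 0 T, h k t ^ 2 ≤ N k) :
    ∑ k ∈ F, ‖∫ z, (h k z.1 : ℂ) * ee (-k) z.2 * (u z : ℂ) ∂(mu T)‖ ^ 2 / N k
      ≤ ∫ z, u z ^ 2 ∂(mu T) := by
  have hEc : ∀ k, Continuous fun z : ℝ × V => (h k z.1 : ℂ) * ee k z.2 := fun k =>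
    (Complex.continuous_ofReal.comp ((hc k).comp continuous_fst)).mul
      ((ee_continuous k).comp continuous_snd)
  have hE : ∀ k, MemLp (fun z : ℝ × V => (h k z.1 : ℂ) * ee k z.2) 2 (mu T) := fun k =>
    (memLp_two_iff_integrable_sq_norm (hEc k).aestronglyMeasurable).2
      (integrable_cont ((hEc k).norm.pow 2))
  have hU : MemLp (fun z => (u z : ℂ)) 2 (mu T) := by
    refine (memLp_two_iff_integrable_sq_norm
      (Complex.continuous_ofReal.comp_aestronglyMeasurable hu)).2 ?_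
    refine hu2.congr (Eventually.of_forall fun z => ?_)
    show u z ^ 2 = ‖(u z : ℂ)‖ ^ 2
    rw [Complex.norm_real, Real.norm_eq_abs, _root_.sq_abs]
  have hin : ∀ k l, ⟪(hE k).toLp _, (hE l).toLp _⟫_ℂ
      = (∫ t in Ioo 0 T, (h k t : ℂ) * (h l t : ℂ)) * ∫ x in cube, ee (l - k) x := by
    intro k l
    rw [L2.inner_def, ← int_mu]
    refine integral_congr_ae ?_
    filter_upwards [(hE k).coeFn_toLp, (hE l).coeFn_toLp] with z h1 h2
    rw [h1, h2, sub_eq_add_neg, ee_add_left, ee_neg]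
    simp only [RCLike.inner_apply, map_mul, Complex.conj_ofReal]
    ring
  have hin2 : ∀ k, ⟪(hE k).toLp _, hU.toLp _⟫_ℂ
      = ∫ z, (h k z.1 : ℂ) * ee (-k) z.2 * (u z : ℂ) ∂(mu T) := by
    intro k
    rw [L2.inner_def]
    refine integral_congr_ae ?_
    filter_upwards [(hE k).coeFn_toLp, hU.coeFn_toLp] with z h1 h2
    rw [h1, h2, ee_neg]
    simp only [RCLike.inner_apply, map_mul, Complex.conj_ofReal]
    ring
  have hnorm : ∀ k, ‖(hE k).toLp _‖ ^ 2 = ∫ t in Ioo 0 T, h k t ^ 2 := by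
    intro k
    have e1 : ((‖(hE k).toLp _‖ ^ 2 : ℝ) : ℂ) = ⟪(hE k).toLp _, (hE k).toLp _⟫_ℂ := by
      rw [inner_self_eq_norm_sq_to_K]; push_cast; rfl
    rw [hin k k, sub_self, integral_ee, if_pos rfl, mul_one] at e1
    have e2 : (∫ t in Ioo 0 T, (h k t : ℂ) * (h k t : ℂ))
        = ((∫ t in Ioo 0 T, h k t ^ 2 : ℝ) : ℂ) := by
      rw [← integral_complex_ofReal]
      refine integral_congr_ae (Eventually.of_forall fun t => ?_)
      show (h k t : ℂ) * (h k t : ℂ) = ((h k t ^ 2 : ℝ) : ℂ)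
      push_cast; ring
    rw [e2] at e1
    exact_mod_cast e1
  have hunorm : ‖hU.toLp _‖ ^ 2 = ∫ z, u z ^ 2 ∂(mu T) := by
    have e1 : ((‖hU.toLp _‖ ^ 2 : ℝ) : ℂ) = ⟪hU.toLp _, hU.toLp _⟫_ℂ := by
      rw [inner_self_eq_norm_sq_to_K]; push_cast; rfl
    rw [L2.inner_def] at e1
    have e2 : (∫ z, ⟪hU.toLp _ z, hU.toLp _ z⟫_ℂ ∂(mu T)) = ((∫ z, u z ^ 2 ∂(mu T) : ℝ) : ℂ) := by
      rw [← integral_complex_ofReal]
      refine integral_congr_ae ?_
      filter_upwards [hU.coeFn_toLp] with z h1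
      rw [h1]
      simp only [RCLike.inner_apply, Complex.conj_ofReal]
      push_cast; ring
    rw [e2] at e1
    exact_mod_cast e1
  have hB := bessel (hU.toLp _) F (fun k => (hE k).toLp _) N hN
    (fun k hk => by rw [hnorm]; exact hb k hk) (fun k _ l _ hkl => by
      rw [hin, integral_ee, if_neg (sub_ne_zero.2 (Ne.symm hkl)), mul_zero])
  rw [hunorm] at hB
  simp_rw [hin2] at hB
  exact hB

end Pool.Agent.Run7.h219.WQ
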