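import Pool.Agent.Run7.h219.WQ.NecC

/-!
Piece Nec: the initial values of very weak solutions in `L²` are `P div R`, `R ∈ L¹`.
-/

set_option autoImplicit false

open MeasureTheory Set Filter Topology
open scoped ContDiff ComplexConjugate ENNReal

namespace Pool.Agent.Run7.h219.WQ

open H459R3.NS Pool.Agent.Run7.h782 Pool.Agent.Run7.h782.GD
open Pool.Agent.Run7.h782.WS Pool.Agent.Run7.h744.WS Pool.Agent.Run7.h782.WQ

theorem exists_cut {T : ℝ} (hT : 0 < T) : ∃ χ : ℝ → ℝ, ContDiff ℝ ∞ χ ∧ χ 0 = 1 ∧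
    (∃ s < T, ∀ t, s ≤ t → χ t = 0) ∧ ∀ t, |χ t| ≤ 1 := by
  refine ⟨fun t => Real.smoothTransition (1 - 2 * t / T), ?_, ?_, ⟨T / 2, by linarith, ?_⟩, ?_⟩
  · exact Real.smoothTransition.contDiff.comp (by fun_prop)
  · simp [Real.smoothTransition.one]
  · intro t ht
    refine Real.smoothTransition.zero_of_nonpos ?_
    rw [sub_nonpos, le_div_iff₀ hT]
    linarith
  · intro t
    rw [abs_of_nonneg (Real.smoothTransition.nonneg _)]
    exact Real.smoothTransition.le_one _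

theorem int_exp_le {T b : ℝ} (hT : 0 < T) (hb : 0 < b) :
    ∫ t in Ioo 0 T, Real.exp (-(b * t)) ≤ 1 / b := by
  rw [← integral_Ioc_eq_integral_Ioo, ← intervalIntegral.integral_of_le hT.le]
  have h : ∀ t ∈ uIcc 0 T, HasDerivAt (fun t => -(Real.exp (-(b * t)) / b))
      (Real.exp (-(b * t))) t := by
    intro t _
    have h2 : HasDerivAt (fun s => Real.exp (-(b * s))) (Real.exp (-(b * t)) * (-(b * 1))) t :=
      (((hasDerivAt_id t).const_mul b).neg).exp
    refine (h2.div_const b).neg.congr_deriv ?_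
    rw [mul_one, mul_neg, neg_div, neg_neg, mul_div_assoc, div_self hb.ne', mul_one]
  rw [intervalIntegral.integral_eq_sub_of_hasDerivAt h
    ((by fun_prop : Continuous fun t => Real.exp (-(b * t))).intervalIntegrable _ _)]
  have h4 := Real.exp_pos (-(b * T))
  have h5 : 0 < Real.exp (-(b * T)) / b := by positivity
  simp only [mul_zero, neg_zero, Real.exp_zero]
  linarith

theorem hk_sq_le {ν T : ℝ} (hν : 0 < ν) (hT : 0 < T) {χ : ℝ → ℝ} (hχ : ContDiff ℝ ∞ χ)
    (hχ1 : ∀ t, |χ t| ≤ 1) : ∃ C : ℝ, 0 < C ∧ ∀ k : K3, k ≠ 0 →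
      ∫ t in Ioo 0 T, hk ν χ k t ^ 2 ≤ C * GD.sq k := by
  have hd : Continuous (deriv χ) := hχ.continuous_deriv (by norm_cast)
  obtain ⟨C₀, hC₀⟩ := (isCompact_Icc (a := (0 : ℝ)) (b := T)).exists_bound_of_continuousOn
    hd.continuousOn
  have hC0 : 0 ≤ C₀ := (norm_nonneg _).trans (hC₀ 0 ⟨le_rfl, hT.le⟩)
  set a : ℝ := 4 * Real.pi ^ 2 * ν with ha
  have ha0 : 0 < a := by positivity
  refine ⟨(2 * a + C₀) ^ 2 / (2 * a), by positivity, fun k hk0 => ?_⟩
  have hs := one_le_sq hk0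
  have hs0 : 0 < GD.sq k := zero_lt_one.trans_le hs
  have hl : lam ν k = a * GD.sq k := by rw [lam, ha]
  have hl0 : 0 < lam ν k := by rw [hl]; positivity
  have h1 : ∀ t ∈ Ioo 0 T, hk ν χ k t ^ 2
      ≤ (2 * lam ν k + C₀) ^ 2 * Real.exp (-(2 * lam ν k * t)) := by
    intro t ht
    have e1 : Real.exp (-(lam ν k * t)) ^ 2 = Real.exp (-(2 * lam ν k * t)) := by
      rw [← Real.exp_nat_mul]; congr 1; push_cast; ring
    rw [hk, mul_pow, e1]
    refine mul_le_mul_of_nonneg_right ?_ (Real.exp_pos _).le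
    have h2 : |2 * lam ν k * χ t - deriv χ t| ≤ 2 * lam ν k + C₀ := by
      refine (abs_sub _ _).trans (add_le_add ?_ (hC₀ t (Ioo_subset_Icc_self ht)))
      rw [abs_mul, abs_of_pos (by positivity : (0 : ℝ) < 2 * lam ν k)]
      exact mul_le_of_le_one_right (by positivity) (hχ1 t)
    rw [← _root_.sq_abs]
    exact pow_le_pow_left₀ (abs_nonneg _) h2 2
  have i1 : IntegrableOn (fun t => hk ν χ k t ^ 2) (Ioo 0 T) :=
    (((hk_cont hχ k).pow 2).continuousOn.integrableOn_compact isCompact_Icc).mono_set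
      Ioo_subset_Icc_self
  have i2 : IntegrableOn (fun t => (2 * lam ν k + C₀) ^ 2 * Real.exp (-(2 * lam ν k * t)))
      (Ioo 0 T) :=
    ((by fun_prop : Continuous fun t => (2 * lam ν k + C₀) ^ 2
      * Real.exp (-(2 * lam ν k * t))).continuousOn.integrableOn_compact isCompact_Icc).mono_set
      Ioo_subset_Icc_self
  have h3 := setIntegral_mono_on i1 i2 measurableSet_Ioo h1
  rw [integral_const_mul] at h3
  have h4 := int_exp_le hT (show 0 < 2 * lam ν k by positivity)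
  refine h3.trans ((mul_le_mul_of_nonneg_left h4 (sq_nonneg _)).trans ?_)
  rw [hl, mul_one_div, div_le_iff₀ (by positivity)]
  have e : (2 * a + C₀) ^ 2 / (2 * a) * GD.sq k * (2 * (a * GD.sq k))
      = ((2 * a + C₀) * GD.sq k) ^ 2 := by
    field_simp
  rw [e]
  refine pow_le_pow_left₀ (by positivity) ?_ 2
  nlinarith [mul_le_mul_of_nonneg_left hs hC0]

theorem summable_Ak {ν T : ℝ} (hν : 0 < ν) (hT : 0 < T) {c : Cf} {u : ℝ → V → V}
    (hV : VW ν T c u) {χ : ℝ → ℝ} (hχ : ContDiff ℝ ∞ χ) (hχ1 : ∀ t, |χ t| ≤ 1) :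
    Summable fun k => ‖Ak ν T χ u k‖ ^ 2 / GD.sq k := by
  obtain ⟨C, hC, hb⟩ := hk_sq_le hν hT hχ hχ1
  have h1 : ∀ i : Fin 3, Summable fun k => ‖Ak ν T χ u k i‖ ^ 2 / GD.sq k := by
    intro i
    refine summable_of_sum_le (c := C * ∫ z, u z.1 z.2 i ^ 2 ∂(mu T))
      (fun k => div_nonneg (sq_nonneg _) (sq_nonneg' k)) (fun F => ?_)
    have h2 : ∑ k ∈ F, ‖Ak ν T χ u k i‖ ^ 2 / GD.sq k
        = ∑ k ∈ F.erase 0, ‖Ak ν T χ u k i‖ ^ 2 / GD.sq k := by
      refine (Finset.sum_subset (Finset.erase_subset 0 F) fun k hk hk' => ?_).symm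
      have : k = 0 := by
        by_contra h
        exact hk' (Finset.mem_erase.2 ⟨h, hk⟩)
      rw [this, sq_zero', div_zero]
    have h3 := sum_A (hV.meas i) (hV.sq i) (hk ν χ) (hk_cont hχ) (fun k => C * GD.sq k)
      (F.erase 0) (fun k hk => mul_pos hC (sq_pos' (Finset.ne_of_mem_erase hk)))
      (fun k hk => hb k (Finset.ne_of_mem_erase hk))
    rw [h2]
    have h4 : ∑ k ∈ F.erase 0, ‖Ak ν T χ u k i‖ ^ 2 / GD.sq k
        = C * ∑ k ∈ F.erase 0, ‖∫ z, (hk ν χ k z.1 : ℂ) * ee (-k) z.2 * (u z.1 z.2 i : ℂ)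
          ∂(mu T)‖ ^ 2 / (C * GD.sq k) := by
      rw [Finset.mul_sum]
      refine Finset.sum_congr rfl fun k hk => ?_
      have hs := sq_pos' (Finset.ne_of_mem_erase hk)
      rw [Ak]
      field_simp
    rw [h4]
    exact mul_le_mul_of_nonneg_left h3 hC.le
  refine Summable.of_nonneg_of_le (fun k => div_nonneg (sq_nonneg _) (sq_nonneg' k))
    (fun k => ?_) (summable_sum fun i (_ : i ∈ Finset.univ) => h1 i)
  rw [← Finset.sum_div]
  refine div_le_div_of_nonneg_right ?_ (sq_nonneg' k)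
  obtain ⟨i, hi⟩ : ∃ i, ‖Ak ν T χ u k‖ = ‖Ak ν T χ u k i‖ := by
    obtain ⟨i, _, hi⟩ := Finset.exists_max_image Finset.univ (fun i => ‖Ak ν T χ u k i‖)
      Finset.univ_nonempty
    refine ⟨i, le_antisymm ((pi_norm_le_iff_of_nonneg (norm_nonneg _)).2
      fun j => hi j (Finset.mem_univ j)) (norm_le_pi_norm _ i)⟩
  rw [hi]
  exact Finset.single_le_sum (f := fun i => ‖Ak ν T χ u k i‖ ^ 2) (fun _ _ => sq_nonneg _)
    (Finset.mem_univ i)

/-! ### Assembly -/

/-- The part of the antidivergence in `L²`. -/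
noncomputable def At (ν T : ℝ) (χ : ℝ → ℝ) (u : ℝ → V → V) (k : K3) : C3 :=
  prj k (Ak ν T χ u k)

theorem memlp_anti {ν T : ℝ} (hν : 0 < ν) (hT : 0 < T) {c : Cf} {u : ℝ → V → V}
    (hV : VW ν T c u) {χ : ℝ → ℝ} (hχ : ContDiff ℝ ∞ χ) (hχ1 : ∀ t, |χ t| ≤ 1) (i j : Fin 3) :
    Memℓp (anti (At ν T χ u) i j) 2 := by
  refine memℓp_gen ?_
  have e : ∀ k, ‖anti (At ν T χ u) i j k‖ ^ (2 : ℝ≥0∞).toReal
      = ‖anti (At ν T χ u) i j k‖ ^ 2 := by
    intro k
    rw [ENNReal.toReal_ofNat]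
    exact Real.rpow_natCast _ 2
  simp_rw [e]
  refine Summable.of_nonneg_of_le (fun k => sq_nonneg _) (fun k => ?_)
    ((summable_Ak hν hT hV hχ hχ1).mul_left ((4 / Real.pi) ^ 2))
  have h1 := norm_anti_le (At ν T χ u) i j k
  have h2 := norm_prj_le k (Ak ν T χ u k)
  have h3 : ‖anti (At ν T χ u) i j k‖ ≤ 4 / Real.pi * (‖Ak ν T χ u k‖ / len k) := by
    refine h1.trans ?_
    have h4 : ‖At ν T χ u k‖ / len k ≤ 4 * ‖Ak ν T χ u k‖ / len k :=
      div_le_div_of_nonneg_right h2 (len_nonneg k)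
    calc 1 / Real.pi * (‖At ν T χ u k‖ / len k)
        ≤ 1 / Real.pi * (4 * ‖Ak ν T χ u k‖ / len k) :=
          mul_le_mul_of_nonneg_left h4 (by positivity)
      _ = 4 / Real.pi * (‖Ak ν T χ u k‖ / len k) := by ring
  calc ‖anti (At ν T χ u) i j k‖ ^ 2 ≤ (4 / Real.pi * (‖Ak ν T χ u k‖ / len k)) ^ 2 :=
        pow_le_pow_left₀ (norm_nonneg _) h3 2
    _ = (4 / Real.pi) ^ 2 * (‖Ak ν T χ u k‖ ^ 2 / GD.sq k) := by
        rw [mul_pow, div_pow (‖Ak ν T χ u k‖), len_sq]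

theorem Ak_neg (ν T : ℝ) (χ : ℝ → ℝ) (u : ℝ → V → V) (k : K3) (i : Fin 3) :
    Ak ν T χ u (-k) i = conj (Ak ν T χ u k i) := by
  unfold Ak
  rw [← integral_conj]
  refine integral_congr_ae (Eventually.of_forall fun z => ?_)
  show (hk ν χ (-k) z.1 : ℂ) * ee (- -k) z.2 * (u z.1 z.2 i : ℂ) = conj _
  rw [map_mul, map_mul, Complex.conj_ofReal, Complex.conj_ofReal, ← ee_neg, hk, hk, lam, lam,
    sq_neg]

theorem At_herm (ν T : ℝ) (χ : ℝ → ℝ) (u : ℝ → V → V) : Herm (At ν T χ u) := by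
  intro k i
  have h := prj_neg_conj k (Ak ν T χ u k)
  have e : Ak ν T χ u (-k) = fun i => conj (Ak ν T χ u k i) := funext fun i => Ak_neg ν T χ u k i
  rw [At, At, e]
  exact congrFun h i

theorem anti_herm' {z : Cf} (hz : Herm z) (i j : Fin 3) (k : K3) :
    anti z i j (-k) = conj (anti z i j k) := by
  simp only [anti, hz k i, hz k j, Pool.Agent.Run7.h782.GD.sq_neg, Pi.neg_apply, map_div₀, map_mul,
    map_add, Complex.conj_I, Complex.conj_ofReal, map_ofNat, map_intCast, Int.cast_neg]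
  rw [show (2 * (Real.pi : ℂ) * -Complex.I * (GD.sq k : ℂ))
    = -(2 * (Real.pi : ℂ) * Complex.I * (GD.sq k : ℂ)) by ring, div_neg, ← neg_div]
  congr 1
  ring

/-- The matrix. -/
noncomputable def RR (ν T : ℝ) (χ : ℝ → ℝ) (u : ℝ → V → V) (i j : Fin 3) (x : V) : ℝ :=
  rf (anti (At ν T χ u) i j) x + mm ν T χ (fun z => u z.1 z.2 i * u z.1 z.2 j) x

theorem anti_comm' (z : Cf) (i j : Fin 3) : anti z i j = anti z j i := by
  funext k
  unfold anti
  congr 1
  ring

theorem str_RR {ν T : ℝ} (hν : 0 < ν) (hT : 0 < T) {c : Cf} {u : ℝ → V → V}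
    (hV : VW ν T c u) {χ : ℝ → ℝ} (hχ : ContDiff ℝ ∞ χ) (hχ1 : ∀ t, |χ t| ≤ 1) :
    Str (RR ν T χ u) where
  per i j k x := by
    rw [RR, RR, rf_per _ k x, mm_per _ _ _ _ k x]
  sym i j x := by
    rw [RR, RR, anti_comm']
    congr 2
    funext z
    ring
  int i j := (rf_int (memlp_anti hν hT hV hχ hχ1 i j)).add
    (mm_int hν hχ.continuous hχ1 (int_uu hV i j))

theorem fr_add' {f g : V → ℝ} (hf : IntegrableOn f cube) (hg : IntegrableOn g cube) (k : K3) :
    fr (fun x => f x + g x) k = fr f k + fr g k := by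
  have key : ∀ {h : V → ℝ}, IntegrableOn h cube →
      Integrable (fun x => ee (-k) x * (h x : ℂ)) (volume.restrict cube) := by
    intro h hh
    refine Integrable.bdd_mul (c := 1) hh.ofReal (ee_continuous _).aestronglyMeasurable
      (Eventually.of_forall fun x => ?_)
    rw [norm_ee]
  rw [fr, fc, fr, fc, fr, fc, ← integral_add (key hf) (key hg)]
  congr 1
  funext x
  push_cast
  ring

theorem fr_RR {ν T : ℝ} (hν : 0 < ν) (hT : 0 < T) {c : Cf} {u : ℝ → V → V}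
    (hV : VW ν T c u) {χ : ℝ → ℝ} (hχ : ContDiff ℝ ∞ χ) (hχ1 : ∀ t, |χ t| ≤ 1) (i j : Fin 3)
    (k : K3) : fr (RR ν T χ u i j) k = anti (At ν T χ u) i j k + Mk ν T χ u k i j := by
  have hm := memlp_anti hν hT hV hχ hχ1 i j
  have h := fr_add' (rf_int hm) (mm_int hν hχ.continuous hχ1 (int_uu hV i j)) k
  have e : RR ν T χ u i j = fun x => rf (anti (At ν T χ u) i j) x
      + mm ν T χ (fun z => u z.1 z.2 i * u z.1 z.2 j) x := rfl
  rw [e, h, fr_rf hm (anti_herm' (At_herm ν T χ u) i j), fr_mm hν hχ.continuous hχ1 (int_uu hV i j)]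
  rfl

theorem Mk_comm (ν T : ℝ) (χ : ℝ → ℝ) (u : ℝ → V → V) (k : K3) (i j : Fin 3) :
    Mk ν T χ u k i j = Mk ν T χ u k j i := by
  unfold Mk
  congr 1
  funext z
  rw [mul_comm (u z.1 z.2 i)]

/-- **Piece Nec.** -/
theorem stmNec : StmNec := by
  intro ν hν c hc T hT u hV
  obtain ⟨χ, hχ, h0, hs, hχ1⟩ := exists_cut hT
  refine ⟨RR ν T χ u, str_RR hν hT hV hχ hχ1, fun k hk0 => ?_⟩
  have hsq : (GD.sq k : ℂ) ≠ 0 := by
    exact_mod_cast (sq_pos' hk0).ne'
  have hsum : ∑ j, (k j : ℂ) * (k j : ℂ) = (GD.sq k : ℂ) := by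
    rw [GD.sq]
    push_cast
    exact Finset.sum_congr rfl fun j _ => by ring
  set N : C3 := fun i => ∑ j, (k j : ℂ) * Mk ν T χ u k i j with hN
  set w : C3 := fun i => c k i - Ak ν T χ u k i - 2 * Real.pi * Complex.I * N i with hw
  -- orthogonality
  have hort : prj k w = 0 := by
    funext i
    set ξ : Fin 3 → ℝ := fun j => (if j = i then GD.sq k else 0) - (k i : ℝ) * (k j : ℝ) with hξ
    have hξc : ∀ j, (ξ j : ℂ) = (if j = i then (GD.sq k : ℂ) else 0) - (k i : ℂ) * (k j : ℂ) := by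
      intro j
      rw [hξ]
      by_cases h : j = i
      · simp only [h, if_true]
        push_cast
        ring
      · simp only [h, if_false]
        push_cast
        ring
    have hξ0 : ∑ j, (k j : ℂ) * (ξ j : ℂ) = 0 := by
      have e : ∀ j : Fin 3, (k j : ℂ) * (ξ j : ℂ)
          = (if j = i then (k j : ℂ) * (GD.sq k : ℂ) else 0)
            - (k i : ℂ) * ((k j : ℂ) * (k j : ℂ)) := by
        intro j
        rw [hξc]
        split_ifs <;> ring
      rw [Finset.sum_congr rfl fun j _ => e j, Finset.sum_sub_distrib, ← Finset.mul_sum, hsum,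
        Finset.sum_ite_eq' Finset.univ i, if_pos (Finset.mem_univ i), sub_self]
    have h1 := weak_char hc.herm hV hχ h0 hs k ξ hξ0
    have h2 : ∑ i, ∑ j, (k i : ℂ) * (ξ j : ℂ) * Mk ν T χ u k i j = ∑ j, (ξ j : ℂ) * N j := by
      rw [Finset.sum_comm]
      refine Finset.sum_congr rfl fun j _ => ?_
      rw [hN, Finset.mul_sum]
      refine Finset.sum_congr rfl fun i _ => ?_
      rw [Mk_comm]
      ring
    rw [h2] at h1
    have h3 : ∑ j, (ξ j : ℂ) * w j = 0 := by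
      have e : ∀ j : Fin 3, (ξ j : ℂ) * w j = (ξ j : ℂ) * c k j
          - (ξ j : ℂ) * Ak ν T χ u k j - 2 * Real.pi * Complex.I * ((ξ j : ℂ) * N j) := by
        intro j
        rw [hw]
        ring
      rw [Finset.sum_congr rfl fun j _ => e j, Finset.sum_sub_distrib, Finset.sum_sub_distrib,
        ← Finset.mul_sum, h1]
      ring
    have h4 : ∑ j, (ξ j : ℂ) * w j = (GD.sq k : ℂ) * w i - (k i : ℂ) * kd k w := by
      have e : ∀ j : Fin 3, (ξ j : ℂ) * w j = (if j = i then (GD.sq k : ℂ) * w j else 0)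
          - (k i : ℂ) * ((k j : ℂ) * w j) := by
        intro j
        rw [hξc]
        split_ifs <;> ring
      rw [Finset.sum_congr rfl fun j _ => e j, Finset.sum_sub_distrib, ← Finset.mul_sum,
        Finset.sum_ite_eq' Finset.univ i, if_pos (Finset.mem_univ i), kd]
    rw [h4] at h3
    show w i - (k i : ℂ) * (kd k w / (GD.sq k : ℂ)) = 0
    field_simp
    linear_combination h3
  -- the divergence
  have hdv : dvr (fun i j l => fr (RR ν T χ u i j) l) k
      = prj k (Ak ν T χ u k) + (2 * Real.pi * Complex.I : ℂ) • prj k N := by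
    have hkd : kd k (At ν T χ u k) = 0 := kd_prj k _
    have e1 : (fun i => ∑ j, (k j : ℂ) * fr (RR ν T χ u i j) k)
        = (1 / (2 * Real.pi * Complex.I) : ℂ) • At ν T χ u k + N := by
      funext i
      have e2 : ∀ j : Fin 3, (k j : ℂ) * fr (RR ν T χ u i j) k
          = 1 / (2 * Real.pi * Complex.I * (GD.sq k : ℂ)) * (At ν T χ u k i * ((k j : ℂ) * (k j : ℂ))
            + (k i : ℂ) * ((k j : ℂ) * At ν T χ u k j)) + (k j : ℂ) * Mk ν T χ u k i j := by
        intro j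
        rw [fr_RR hν hT hV hχ hχ1, anti]
        ring
      rw [Finset.sum_congr rfl fun j _ => e2 j, Finset.sum_add_distrib, ← Finset.mul_sum,
        Finset.sum_add_distrib, ← Finset.mul_sum, ← Finset.mul_sum, hsum]
      rw [show ∑ j, (k j : ℂ) * At ν T χ u k j = kd k (At ν T χ u k) from rfl, hkd]
      simp only [Pi.add_apply, Pi.smul_apply, smul_eq_mul, hN]
      congr 1
      have hpi : (2 * Real.pi * Complex.I : ℂ) ≠ 0 := Complex.two_pi_I_ne_zero
      field_simp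
      ring
    rw [dvr]
    show (2 * Real.pi * Complex.I : ℂ) • prj k (fun i => ∑ j, (k j : ℂ) * fr (RR ν T χ u i j) k) = _
    rw [e1, prj_add, prj_smul, smul_add, smul_smul, mul_one_div_cancel Complex.two_pi_I_ne_zero,
      one_smul]
    congr 1
    exact prj_of_kd_eq_zero hkd
  rw [hdv]
  have h5 : prj k (c k) = c k := prj_of_kd_eq_zero (hc.dv k)
  have h6 : w = c k - Ak ν T χ u k - (2 * Real.pi * Complex.I : ℂ) • N := by
    funext i
    rfl
  rw [h6, prj_sub, prj_sub, prj_smul, h5] at hort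
  have h7 := sub_eq_zero.1 hort
  rw [← h7]
  abel

end Pool.Agent.Run7.h219.WQ
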